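import Pool.Agent.Lib.MP_a221bc_thr.Vert
import Pool.Agent.Lib.MP_a221bc_esop.Gray

/-!
# The graph as an induced subgraph of the hypercube
-/

namespace Pool.Agent.Lib.ThrHard

open Pool.Agent.Lib.EsopHard

/-! ## Adjacency of words -/

/-- adjacency, decided -/
def adjB : List Bool → List Bool → Bool
  | a :: l, b :: l' => if a = b then adjB l l' else decide (l = l')
  | _, _ => false

theorem adjB_iff : ∀ l l' : List Bool, adjB l l' = true ↔ Adj l l'
  | [], _ => by
    constructor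
    · intro h
      simp [adjB] at h
    · intro h
      cases h
  | _ :: _, [] => by
    constructor
    · intro h
      simp [adjB] at h
    · intro h
      cases h
  | a :: l, b :: l' => by
    rw [adjB]
    by_cases hab : a = b
    · rw [if_pos hab, adjB_iff l l']
      subst hab
      constructor
      · exact Adj.tail a
      · intro h
        generalize h1 : a :: l = u at h
        generalize h2 : a :: l' = v at h
        cases h with
        | head b' m =>
          have e3 := (List.cons.inj h1).1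
          have e4 := (List.cons.inj h2).1
          rw [e3] at e4
          cases b' <;> simp at e4
        | tail b' hh =>
          rw [(List.cons.inj h1).2, (List.cons.inj h2).2]
          exact hh
    · rw [if_neg hab, decide_eq_true_eq]
      constructor
      · rintro rfl
        have : b = !a := by
          cases a <;> cases b <;> simp_all
        rw [this]
        exact Adj.head a l
      · intro h
        generalize h1 : a :: l = u at h
        generalize h2 : b :: l' = v at h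
        cases h with
        | head b' m =>
          rw [(List.cons.inj h1).2, (List.cons.inj h2).2]
        | tail b' hh =>
          exact absurd ((List.cons.inj h1).1.trans (List.cons.inj h2).1.symm) hab

instance (l l' : List Bool) : Decidable (Adj l l') := decidable_of_iff _ (adjB_iff l l')

theorem not_adj_self (l : List Bool) : ¬ Adj l l := by
  rw [← adjB_iff]
  induction l with
  | nil => simp [adjB]
  | cons a l ih => rwa [adjB, if_pos rfl]

theorem adj_append {a b a' b' : List Bool} (hl : a.length = a'.length) :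
    Adj (a ++ b) (a' ++ b') ↔ (Adj a a' ∧ b = b') ∨ (a = a' ∧ Adj b b') := by
  induction a generalizing a' with
  | nil =>
    have : a' = [] := List.length_eq_zero_iff.1 hl.symm
    subst this
    simp only [List.nil_append, true_and]
    constructor
    · exact Or.inr
    · rintro (⟨h, -⟩ | h)
      · exact absurd h (not_adj_self _)
      · exact h
  | cons x a ih =>
    rcases a' with _ | ⟨y, a'⟩
    · simp at hl
    · have hl' : a.length = a'.length := by simpa using hl
      have ih := ih hl'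
      rw [List.cons_append, List.cons_append, ← adjB_iff, ← adjB_iff (x :: a), adjB, adjB]
      by_cases hxy : x = y
      · subst hxy
        rw [if_pos rfl, if_pos rfl, adjB_iff, adjB_iff, ih, List.cons.injEq]
        simp
      · rw [if_neg hxy, if_neg hxy, decide_eq_true_eq, decide_eq_true_eq, List.cons.injEq]
        constructor
        · intro h
          have := List.append_inj h hl'
          exact Or.inl this
        · rintro (⟨rfl, rfl⟩ | ⟨⟨h, -⟩, -⟩)
          · rfl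
          · exact absurd h hxy

/-! ## Snakes -/

/-- an induced cycle with `2 * 2 ^ k` vertices -/
def wr (k b : ℕ) : List Bool := gray k ((b + 1) / 2) ++ gray k (b / 2)

theorem length_wr (k b : ℕ) : (wr k b).length = 2 * k := by
  rw [wr, List.length_append, length_gray, length_gray]
  ring

theorem wr_adj_succ (k b : ℕ) : Adj (wr (k + 1) b) (wr (k + 1) (b + 1)) := by
  rw [wr, wr, adj_append (by rw [length_gray, length_gray])]
  rcases Nat.mod_two_eq_zero_or_one b with h | h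
  · have h1 : (b + 1 + 1) / 2 = (b + 1) / 2 + 1 := by omega
    have h2 : (b + 1) / 2 = b / 2 := by omega
    left
    rw [h1, h2]
    exact ⟨gray_adj k _, rfl⟩
  · have h1 : (b + 1 + 1) / 2 = (b + 1) / 2 := by omega
    have h2 : (b + 1) / 2 = b / 2 + 1 := by omega
    right
    rw [h1, h2]
    exact ⟨rfl, gray_adj k _⟩

theorem wr_wrap (k : ℕ) : Adj (wr (k + 1) (2 * 2 ^ (k + 1) - 1)) (wr (k + 1) 0) := by
  have h := wr_adj_succ k (2 * 2 ^ (k + 1) - 1)
  have hp : 0 < 2 ^ (k + 1) := by positivity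
  have e : wr (k + 1) (2 * 2 ^ (k + 1) - 1 + 1) = wr (k + 1) 0 := by
    have e1 : 2 * 2 ^ (k + 1) - 1 + 1 = 2 * 2 ^ (k + 1) := by omega
    have e2 : (2 * 2 ^ (k + 1) + 1) / 2 = 0 + 2 ^ (k + 1) := by omega
    have e3 : 2 * 2 ^ (k + 1) / 2 = 0 + 2 ^ (k + 1) := by omega
    rw [e1, wr, wr, e2, e3, gray_add]
  rwa [e] at h

theorem wr_adj {k b b' : ℕ} (h : Nx (2 * 2 ^ (k + 1)) b b') : Adj (wr (k + 1) b) (wr (k + 1) b') := by
  have hp : 0 < 2 ^ (k + 1) := by positivity
  rcases h with rfl | rfl | ⟨rfl, h⟩ | ⟨rfl, h⟩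
  · exact wr_adj_succ k b
  · exact (wr_adj_succ k b').symm
  · have : b' = 2 * 2 ^ (k + 1) - 1 := by omega
    rw [this]
    exact (wr_wrap k).symm
  · have : b = 2 * 2 ^ (k + 1) - 1 := by omega
    rw [this]
    exact wr_wrap k

theorem wr_inj {k b b' : ℕ} (hb : b < 2 * 2 ^ (k + 1)) (hb' : b' < 2 * 2 ^ (k + 1))
    (h : wr (k + 1) b = wr (k + 1) b') : b = b' := by
  have hp : 2 ≤ 2 ^ (k + 1) := by
    rw [pow_succ]
    have : 0 < 2 ^ k := by positivity
    omega
  obtain ⟨h1, h2⟩ := List.append_inj h (by rw [length_gray, length_gray])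
  have h3 := gray_inj _ _ _ h1
  have h4 := gray_inj _ _ _ h2
  rw [Nat.mod_eq_of_lt (show b / 2 < 2 ^ (k + 1) by omega),
    Nat.mod_eq_of_lt (show b' / 2 < 2 ^ (k + 1) by omega)] at h4
  by_contra hne
  have h5 : (b % 2 = 0 ∧ b' = b + 1) ∨ (b' % 2 = 0 ∧ b = b' + 1) := by omega
  rcases h5 with ⟨h5, h6⟩ | ⟨h5, h6⟩
  · have e1 : (b + 1) / 2 = b / 2 := by omega
    have e2 : (b' + 1) / 2 = b / 2 + 1 := by omega
    rw [e1, e2] at h3
    have h7 := (Nat.modEq_iff_dvd' (by omega)).1 (show b / 2 ≡ b / 2 + 1 [MOD 2 ^ (k + 1)] from h3)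
    rw [Nat.add_sub_cancel_left] at h7
    have := Nat.le_of_dvd one_pos h7
    omega
  · have e1 : (b' + 1) / 2 = b' / 2 := by omega
    have e2 : (b + 1) / 2 = b' / 2 + 1 := by omega
    rw [e1, e2] at h3
    have h7 := (Nat.modEq_iff_dvd' (by omega)).1 (show b' / 2 ≡ b' / 2 + 1 [MOD 2 ^ (k + 1)] from h3.symm)
    rw [Nat.add_sub_cancel_left] at h7
    have := Nat.le_of_dvd one_pos h7
    omega

theorem wr_adj_iff {k b b' : ℕ} (hb : b < 2 * 2 ^ (k + 1)) (hb' : b' < 2 * 2 ^ (k + 1)) :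
    Adj (wr (k + 1) b) (wr (k + 1) b') ↔ Nx (2 * 2 ^ (k + 1)) b b' := by
  refine ⟨fun h => ?_, wr_adj⟩
  have hne : b ≠ b' := by
    rintro rfl
    exact not_adj_self _ h
  rw [wr, wr, adj_append (by rw [length_gray, length_gray])] at h
  rcases h with ⟨-, h2⟩ | ⟨h1, -⟩
  · have h4 := gray_inj _ _ _ h2
    rw [Nat.mod_eq_of_lt (show b / 2 < 2 ^ (k + 1) by omega),
      Nat.mod_eq_of_lt (show b' / 2 < 2 ^ (k + 1) by omega)] at h4
    unfold Nx
    omega
  · have h3 := gray_inj _ _ _ h1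
    rcases Nat.lt_or_ge ((b + 1) / 2) (2 ^ (k + 1)) with c1 | c1 <;>
      rcases Nat.lt_or_ge ((b' + 1) / 2) (2 ^ (k + 1)) with c2 | c2
    · rw [Nat.mod_eq_of_lt c1, Nat.mod_eq_of_lt c2] at h3
      unfold Nx
      omega
    · have e : (b' + 1) / 2 = 2 ^ (k + 1) := by omega
      rw [Nat.mod_eq_of_lt c1, e, Nat.mod_self] at h3
      unfold Nx
      omega
    · have e : (b + 1) / 2 = 2 ^ (k + 1) := by omega
      rw [Nat.mod_eq_of_lt c2, e, Nat.mod_self] at h3
      unfold Nx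
      omega
    · omega

/-! ## Local codes -/

/-- the points of a cell on the line of the variable -/
def sx : ℕ → List Bool
  | 0 => [false, false, false, false, false]
  | 1 => [true, false, false, false, false]
  | 2 => [true, true, false, false, false]
  | 3 => [true, true, true, false, false]
  | 4 => [false, true, true, false, false]
  | 5 => [false, true, true, false, false]
  | 6 => [false, true, true, false, false]
  | 7 => [true, true, true, false, false]
  | 8 => [true, true, false, false, false]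
  | 9 => [true, false, false, false, false]
  | _ => [false, false, false, false, false]

/-- second coordinate on the line of the variable -/
def sb (t : ℕ) : ℕ := if t ≤ 4 then 0 else if t = 5 then 1 else if t ≤ 10 then 2 else 3

/-- the points of a cell on the line of the clause -/
def kx : ℕ → List Bool
  | 0 => [true, true, false, true, true]
  | 1 => [true, false, false, true, true]
  | 2 => [true, false, false, true, true]
  | 3 => [true, false, false, true, true]
  | _ => [true, true, false, true, true]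

/-- first coordinate on the line of the clause -/
def ka (t : ℕ) : ℕ := if t ≤ 1 then 0 else if t = 2 then 1 else if t ≤ 4 then 2 else 3

/-- the points of a bridge -/
def bx (s : Bool) : ℕ → List Bool
  | 1 => if s = true then [false, false, false, true, false] else [false, true, true, true, false]
  | 2 => [false, true, false, true, false]
  | _ => [false, true, false, true, true]

theorem loc1 : ∀ t < 12, ∀ t' < 12, sx t = sx t' → sb t' = sb t + 1 → t' = t + 1 := by decide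

theorem loc2 : ∀ t < 12, ∀ t' < 12, sx t = sx t' ∧ sb t = 3 ∧ sb t' = 0 → t = 11 ∧ t' = 0 := by decide

theorem loc3 : ∀ t < 12, ∀ t' < 12, sb t = sb t' → Adj (sx t) (sx t') → t' = t + 1 ∨ t = t' + 1 := by
  decide

theorem loc4 : ∀ t < 6, ∀ t' < 6, kx t = kx t' → ka t' = ka t + 1 → t' = t + 1 := by decide

theorem loc5 : ∀ t < 6, ∀ t' < 6, kx t = kx t' ∧ ka t = 3 ∧ ka t' = 0 → t = 5 ∧ t' = 0 := by decide

theorem loc6 : ∀ t < 6, ∀ t' < 6, ka t = ka t' → Adj (kx t) (kx t') → t' = t + 1 ∨ t = t' + 1 := by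
  decide

theorem loc7 : ∀ t < 12, ∀ t' < 6, sx t ≠ kx t' ∧ ¬ Adj (sx t) (kx t') := by decide

theorem loc8 : ∀ t < 12, ∀ s : Bool, ∀ q < 4, 1 ≤ q → sx t ≠ bx s q := by decide

theorem loc8' : ∀ t < 12, ∀ s : Bool, ∀ q < 4, 1 ≤ q ∧ sb t = 0 ∧ Adj (sx t) (bx s q) →
    q = 1 ∧ t = if s = true then 0 else 4 := by decide

theorem loc9 : ∀ t < 6, ∀ s : Bool, ∀ q < 4, 1 ≤ q → kx t ≠ bx s q := by decide

theorem loc9' : ∀ t < 6, ∀ s : Bool, ∀ q < 4, 1 ≤ q ∧ ka t = 0 ∧ Adj (kx t) (bx s q) →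
    q = 3 ∧ t = 0 := by decide

theorem loc10 : ∀ s : Bool, ∀ q < 4, ∀ q' < 4, 1 ≤ q ∧ 1 ≤ q' ∧ Adj (bx s q) (bx s q') →
    q' = q + 1 ∨ q = q' + 1 := by decide

theorem loc11 : ∀ t < 12, ∀ t' < 12, sb t = sb t' → sx t = sx t' → t = t' := by decide

theorem loc12 : ∀ t < 6, ∀ t' < 6, ka t = ka t' → kx t = kx t' → t = t' := by decide

theorem loc13 : ∀ s : Bool, ∀ q < 4, ∀ q' < 4, 1 ≤ q → 1 ≤ q' → bx s q = bx s q' → q = q' := by decide

theorem loc14 : ∀ t < 11, (sb (t + 1) = sb t ∧ Adj (sx t) (sx (t + 1))) ∨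
    (sb (t + 1) = sb t + 1 ∧ sx (t + 1) = sx t) := by decide

theorem loc15 : ∀ t < 5, (ka (t + 1) = ka t ∧ Adj (kx t) (kx (t + 1))) ∨
    (ka (t + 1) = ka t + 1 ∧ kx (t + 1) = kx t) := by decide

theorem loc16 : ∀ s : Bool, ∀ q < 3, 1 ≤ q → Adj (bx s q) (bx s (q + 1)) := by decide

theorem loc17 : ∀ s : Bool, Adj (sx (if s = true then 0 else 4)) (bx s 1) ∧
    sb (if s = true then 0 else 4) = 0 := by decide

theorem loc18 : ∀ s : Bool, Adj (kx 0) (bx s 3) := by decide

theorem sb_le (t : ℕ) : sb t ≤ 3 := by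
  unfold sb
  split_ifs <;> omega

theorem ka_le (t : ℕ) : ka t ≤ 3 := by
  unfold ka
  split_ifs <;> omega

/-! ## The codes of the vertices -/

/-- the code of a position -/
def cd (i j a b : ℕ) (x : List Bool) : List Bool := wr (i + 1) a ++ (wr (j + 1) b ++ x)

/-- position of a vertex -/
def Dat.pos (D : Dat) : Vert → ℕ × ℕ × List Bool
  | .cyc v t => (4 * v, 4 * (t / 12) + sb (t % 12), sx (t % 12))
  | .cls C s => (4 * (s / 6) + ka (s % 6), 4 * C, kx (s % 6))
  | .br v C q => (4 * v, 4 * C, bx (D.sg v C) q)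

/-- the code of a vertex -/
def Dat.code (D : Dat) (i j : ℕ) (z : Vert) : List Bool := cd i j (D.pos z).1 (D.pos z).2.1 (D.pos z).2.2

theorem length_sx (t : ℕ) : (sx t).length = 5 := by
  unfold sx
  split <;> rfl

theorem length_kx (t : ℕ) : (kx t).length = 5 := by
  unfold kx
  split <;> rfl

theorem length_bx (s : Bool) (q : ℕ) : (bx s q).length = 5 := by
  unfold bx
  split
  · split_ifs <;> rfl
  · rfl
  · rfl

theorem Dat.length_code (D : Dat) (i j : ℕ) (z : Vert) : (D.code i j z).length = 2 * i + 2 * j + 9 := by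
  have h : ((D.pos z).2.2).length = 5 := by
    rcases z with ⟨v, t⟩ | ⟨C, s⟩ | ⟨v, C, q⟩
    · exact length_sx _
    · exact length_kx _
    · exact length_bx _ _
  rw [Dat.code, cd, List.length_append, List.length_append, length_wr, length_wr, h]
  ring

/-- compatible sizes -/
structure Dat.Fit (D : Dat) (i j : ℕ) : Prop where
  hV : 2 * D.V < 2 ^ (i + 1)
  hM : D.M = 2 ^ j

theorem Dat.Fit.m2 {D : Dat} {i j : ℕ} (F : D.Fit i j) : 4 * D.M = 2 * 2 ^ (j + 1) := by
  rw [F.hM, pow_succ]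
  ring

theorem Dat.Fit.pos_lt {D : Dat} {i j : ℕ} (F : D.Fit i j) {z : Vert} (h : D.Ok z) :
    (D.pos z).1 + 1 < 2 * 2 ^ (i + 1) ∧ (D.pos z).2.1 < 4 * D.M := by
  have hV := F.hV
  rcases z with ⟨v, t⟩ | ⟨C, s⟩ | ⟨v, C, q⟩ <;> simp only [Dat.Ok, Dat.pos] at h ⊢
  · have := sb_le (t % 12)
    omega
  · have h1 := ka_le (s % 6)
    rcases Nat.lt_or_ge (s / 6) D.V with h2 | h2
    · omega
    · have h3 : s % 6 = 0 := by omega
      have h4 : ka (s % 6) = 0 := by rw [h3]; rfl
      omega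
  · omega

theorem cd_adj {D : Dat} {i j : ℕ} (F : D.Fit i j) {a b a' b' : ℕ} {x x' : List Bool}
    (ha : a + 1 < 2 * 2 ^ (i + 1)) (ha' : a' + 1 < 2 * 2 ^ (i + 1)) (hb : b < 4 * D.M) (hb' : b' < 4 * D.M) :
    Adj (cd i j a b x) (cd i j a' b' x') ↔
      ((a' = a + 1 ∨ a = a' + 1) ∧ b = b' ∧ x = x') ∨ (a = a' ∧ Nx (4 * D.M) b b' ∧ x = x') ∨
        (a = a' ∧ b = b' ∧ Adj x x') := by
  have hm := F.m2
  have e1 : Adj (wr (i + 1) a) (wr (i + 1) a') ↔ (a' = a + 1 ∨ a = a' + 1) := by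
    rw [wr_adj_iff (by omega) (by omega)]
    unfold Nx
    omega
  have e2 : wr (i + 1) a = wr (i + 1) a' ↔ a = a' :=
    ⟨fun h => wr_inj (by omega) (by omega) h, fun h => by rw [h]⟩
  have e3 : wr (j + 1) b = wr (j + 1) b' ↔ b = b' :=
    ⟨fun h => wr_inj (by omega) (by omega) h, fun h => by rw [h]⟩
  have e4 : Adj (wr (j + 1) b) (wr (j + 1) b') ↔ Nx (4 * D.M) b b' := by
    rw [wr_adj_iff (by omega) (by omega), hm]
  have e5 : wr (j + 1) b ++ x = wr (j + 1) b' ++ x' ↔ b = b' ∧ x = x' := by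
    constructor
    · intro h
      obtain ⟨h1, h2⟩ := List.append_inj h (by rw [length_wr, length_wr])
      exact ⟨e3.1 h1, h2⟩
    · rintro ⟨rfl, rfl⟩
      rfl
  rw [cd, cd, adj_append (by rw [length_wr, length_wr]), adj_append (by rw [length_wr, length_wr]),
    e1, e2, e3, e4, e5]
  tauto

theorem cd_inj {D : Dat} {i j : ℕ} (F : D.Fit i j) {a b a' b' : ℕ} {x x' : List Bool}
    (ha : a + 1 < 2 * 2 ^ (i + 1)) (ha' : a' + 1 < 2 * 2 ^ (i + 1)) (hb : b < 4 * D.M) (hb' : b' < 4 * D.M)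
    (h : cd i j a b x = cd i j a' b' x') : a = a' ∧ b = b' ∧ x = x' := by
  have hm := F.m2
  obtain ⟨h1, h2⟩ := List.append_inj h (by rw [length_wr, length_wr])
  obtain ⟨h3, h4⟩ := List.append_inj h2 (by rw [length_wr, length_wr])
  exact ⟨wr_inj (by omega) (by omega) h1, wr_inj (by omega) (by omega) h3, h4⟩

theorem Dat.Fit.code_inj {D : Dat} {i j : ℕ} (F : D.Fit i j) {z z' : Vert} (h : D.Ok z) (h' : D.Ok z')
    (e : D.code i j z = D.code i j z') : z = z' := by
  obtain ⟨a1, a2⟩ := F.pos_lt h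
  obtain ⟨b1, b2⟩ := F.pos_lt h'
  obtain ⟨e1, e2, e3⟩ := cd_inj F a1 b1 a2 b2 e
  rcases z with ⟨v, t⟩ | ⟨C, s⟩ | ⟨v, C, q⟩ <;> rcases z' with ⟨v', t'⟩ | ⟨C', s'⟩ | ⟨v', C', q'⟩ <;>
    simp only [Dat.Ok, Dat.pos] at h h' e1 e2 e3
  · have l1 := sb_le (t % 12)
    have l2 := sb_le (t' % 12)
    have := loc11 (t % 12) (by omega) (t' % 12) (by omega) (by omega) e3
    have hv : v = v' := by omega
    have ht : t = t' := by omega
    rw [hv, ht]
  · exact absurd e3 (loc7 _ (Nat.mod_lt _ (by norm_num)) _ (Nat.mod_lt _ (by norm_num))).1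
  · exact absurd e3 (loc8 _ (Nat.mod_lt _ (by norm_num)) _ _ (by omega) (by omega))
  · exact absurd e3.symm (loc7 _ (Nat.mod_lt _ (by norm_num)) _ (Nat.mod_lt _ (by norm_num))).1
  · have l1 := ka_le (s % 6)
    have l2 := ka_le (s' % 6)
    have := loc12 (s % 6) (by omega) (s' % 6) (by omega) (by omega) e3
    have hv : C = C' := by omega
    have ht : s = s' := by omega
    rw [hv, ht]
  · exact absurd e3 (loc9 _ (Nat.mod_lt _ (by norm_num)) _ _ (by omega) (by omega))
  · exact absurd e3.symm (loc8 _ (Nat.mod_lt _ (by norm_num)) _ _ (by omega) (by omega))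
  · exact absurd e3.symm (loc9 _ (Nat.mod_lt _ (by norm_num)) _ _ (by omega) (by omega))
  · have hv : v = v' := by omega
    have hC : C = C' := by omega
    subst hv hC
    rw [loc13 _ q (by omega) q' (by omega) (by omega) (by omega) e3]

theorem Dat.Fit.adj_code {D : Dat} {i j : ℕ} (F : D.Fit i j) {z z' : Vert} (h : D.Ok z) (h' : D.Ok z')
    (e : Adj (D.code i j z) (D.code i j z')) : D.E z z' := by
  obtain ⟨a1, a2⟩ := F.pos_lt h
  obtain ⟨b1, b2⟩ := F.pos_lt h'
  rw [Dat.code, Dat.code, cd_adj F a1 b1 a2 b2] at e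
  rcases z with ⟨v, t⟩ | ⟨C, s⟩ | ⟨v, C, q⟩ <;> rcases z' with ⟨v', t'⟩ | ⟨C', s'⟩ | ⟨v', C', q'⟩ <;>
    simp only [Dat.Ok, Dat.pos, Nx] at h h' e
  · have l1 := sb_le (t % 12)
    have l2 := sb_le (t' % 12)
    have l3 := Nat.mod_lt t (show 0 < 12 by norm_num)
    have l4 := Nat.mod_lt t' (show 0 < 12 by norm_num)
    show v = v' ∧ Nx _ _ _
    unfold Nx
    rcases e with ⟨e1, e2, e3⟩ | ⟨e1, e2, e3⟩ | ⟨e1, e2, e3⟩
    · omega
    · have f1 := loc1 _ l3 _ l4 e3
      have f2 := loc2 _ l3 _ l4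
      have f3 := loc1 _ l4 _ l3 e3.symm
      have f4 := loc2 _ l4 _ l3
      refine ⟨by omega, ?_⟩
      rcases e2 with e2 | e2 | e2 | e2
      · by_cases c : sb (t' % 12) = sb (t % 12) + 1
        · have := f1 c
          omega
        · have := f2 ⟨e3, by omega, by omega⟩
          omega
      · by_cases c : sb (t % 12) = sb (t' % 12) + 1
        · have := f3 c
          omega
        · have := f4 ⟨e3.symm, by omega, by omega⟩
          omega
      · have := f4 ⟨e3.symm, by omega, by omega⟩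
        omega
      · have := f2 ⟨e3, by omega, by omega⟩
        omega
    · have f := loc3 _ l3 _ l4 (by omega) e3
      omega
  · obtain ⟨l1, l2⟩ := loc7 _ (Nat.mod_lt t (by norm_num)) _ (Nat.mod_lt s' (by norm_num))
    exact (e.elim (fun e => l1 e.2.2) fun e => e.elim (fun e => l1 e.2.2) fun e => l2 e.2.2).elim
  · have l1 := loc8 _ (Nat.mod_lt t (by norm_num)) (D.sg v' C') q' (by omega) (by omega)
    have l3 := sb_le (t % 12)
    rcases e with ⟨e1, e2, e3⟩ | ⟨e1, e2, e3⟩ | ⟨e1, e2, e3⟩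
    · exact absurd e3 l1
    · exact absurd e3 l1
    · have hv : v = v' := by omega
      subst hv
      obtain ⟨f1, f2⟩ := loc8' _ (Nat.mod_lt t (by norm_num)) (D.sg v C') q' (by omega)
        ⟨by omega, by omega, e3⟩
      refine ⟨rfl, f1, ?_⟩
      unfold Dat.rt
      omega
  · obtain ⟨l1, l2⟩ := loc7 _ (Nat.mod_lt t' (by norm_num)) _ (Nat.mod_lt s (by norm_num))
    exact (e.elim (fun e => l1 e.2.2.symm) fun e => e.elim (fun e => l1 e.2.2.symm)
      fun e => l2 e.2.2.symm).elim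
  · have l1 := ka_le (s % 6)
    have l2 := ka_le (s' % 6)
    have l3 := Nat.mod_lt s (show 0 < 6 by norm_num)
    have l4 := Nat.mod_lt s' (show 0 < 6 by norm_num)
    show C = C' ∧ _
    rcases e with ⟨e1, e2, e3⟩ | ⟨e1, e2, e3⟩ | ⟨e1, e2, e3⟩
    · refine ⟨by omega, ?_⟩
      rcases e1 with e1 | e1
      · by_cases c : ka (s' % 6) = ka (s % 6) + 1
        · have := loc4 _ l3 _ l4 e3 c
          omega
        · have := loc5 _ l3 _ l4 ⟨e3, by omega, by omega⟩
          omega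
      · by_cases c : ka (s % 6) = ka (s' % 6) + 1
        · have := loc4 _ l4 _ l3 e3.symm c
          omega
        · have := loc5 _ l4 _ l3 ⟨e3.symm, by omega, by omega⟩
          omega
    · omega
    · have f := loc6 _ l3 _ l4 (by omega) e3
      omega
  · have l1 := loc9 _ (Nat.mod_lt s (by norm_num)) (D.sg v' C') q' (by omega) (by omega)
    have l3 := ka_le (s % 6)
    rcases e with ⟨e1, e2, e3⟩ | ⟨e1, e2, e3⟩ | ⟨e1, e2, e3⟩
    · exact absurd e3 l1
    · exact absurd e3 l1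
    · obtain ⟨f1, f2⟩ := loc9' _ (Nat.mod_lt s (by norm_num)) (D.sg v' C') q' (by omega)
        ⟨by omega, by omega, e3⟩
      exact ⟨by omega, f1, by omega⟩
  · have l1 := loc8 _ (Nat.mod_lt t' (by norm_num)) (D.sg v C) q (by omega) (by omega)
    have l3 := sb_le (t' % 12)
    rcases e with ⟨e1, e2, e3⟩ | ⟨e1, e2, e3⟩ | ⟨e1, e2, e3⟩
    · exact absurd e3.symm l1
    · exact absurd e3.symm l1
    · have hv : v = v' := by omega
      subst hv
      obtain ⟨f1, f2⟩ := loc8' _ (Nat.mod_lt t' (by norm_num)) (D.sg v C) q (by omega)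
        ⟨by omega, by omega, e3.symm⟩
      refine ⟨rfl, f1, ?_⟩
      unfold Dat.rt
      omega
  · have l1 := loc9 _ (Nat.mod_lt s' (by norm_num)) (D.sg v C) q (by omega) (by omega)
    have l3 := ka_le (s' % 6)
    rcases e with ⟨e1, e2, e3⟩ | ⟨e1, e2, e3⟩ | ⟨e1, e2, e3⟩
    · exact absurd e3.symm l1
    · exact absurd e3.symm l1
    · obtain ⟨f1, f2⟩ := loc9' _ (Nat.mod_lt s' (by norm_num)) (D.sg v C) q (by omega)
        ⟨by omega, by omega, e3.symm⟩
      exact ⟨by omega, f1, by omega⟩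
  · rcases e with ⟨e1, e2, e3⟩ | ⟨e1, e2, e3⟩ | ⟨e1, e2, e3⟩
    · omega
    · omega
    · have hv : v = v' := by omega
      have hC : C = C' := by omega
      subst hv hC
      exact ⟨rfl, rfl, loc10 _ q (by omega) q' (by omega) ⟨by omega, by omega, e3⟩⟩

theorem Dat.Fit.cyc_succ {D : Dat} {i j : ℕ} (F : D.Fit i j) {v t t' : ℕ} (hv : v < D.V)
    (ht : t < 12 * D.M) (ht' : t' < 12 * D.M) (h : t' = t + 1 ∨ (t' = 0 ∧ t + 1 = 12 * D.M)) :
    Adj (D.code i j (.cyc v t)) (D.code i j (.cyc v t')) := by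
  obtain ⟨a1, a2⟩ := F.pos_lt (z := .cyc v t) ⟨hv, ht⟩
  obtain ⟨b1, b2⟩ := F.pos_lt (z := .cyc v t') ⟨hv, ht'⟩
  rw [Dat.code, Dat.code, cd_adj F a1 b1 a2 b2]
  simp only [Dat.pos, Nx]
  rcases h with h | ⟨h, h2⟩
  · rcases Nat.lt_or_ge (t % 12) 11 with h3 | h3
    · have e1 : t' % 12 = t % 12 + 1 := by omega
      have e2 : t' / 12 = t / 12 := by omega
      rcases loc14 (t % 12) h3 with ⟨c1, c2⟩ | ⟨c1, c2⟩
      · right; right
        rw [e1, e2, c1]
        exact ⟨trivial, rfl, c2⟩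
      · right; left
        rw [e1, e2, c1, c2]
        exact ⟨trivial, Or.inl rfl, rfl⟩
    · have e0 : t % 12 = 11 := by omega
      have e1 : t' % 12 = 0 := by omega
      have e2 : t' / 12 = t / 12 + 1 := by omega
      right; left
      rw [e0, e1, e2]
      exact ⟨trivial, Or.inl rfl, rfl⟩
  · have e0 : t % 12 = 11 := by omega
    subst h
    right; left
    rw [e0]
    refine ⟨trivial, ?_, rfl⟩
    have e3 : sb 11 = 3 := rfl
    have e4 : sb (0 % 12) = 0 := rfl
    rw [e3, e4]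
    omega

theorem Dat.Fit.cls_succ {D : Dat} {i j : ℕ} (F : D.Fit i j) {C s : ℕ} (hC : C < D.M)
    (ha : D.act C = true) (hs : s + 1 ≤ 6 * D.V) :
    Adj (D.code i j (.cls C s)) (D.code i j (.cls C (s + 1))) := by
  obtain ⟨a1, a2⟩ := F.pos_lt (z := .cls C s) ⟨hC, ha, by omega⟩
  obtain ⟨b1, b2⟩ := F.pos_lt (z := .cls C (s + 1)) ⟨hC, ha, by omega⟩
  rw [Dat.code, Dat.code, cd_adj F a1 b1 a2 b2]
  simp only [Dat.pos, Nx]
  rcases Nat.lt_or_ge (s % 6) 5 with h3 | h3
  · have e1 : (s + 1) % 6 = s % 6 + 1 := by omega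
    have e2 : (s + 1) / 6 = s / 6 := by omega
    rcases loc15 (s % 6) h3 with ⟨c1, c2⟩ | ⟨c1, c2⟩
    · right; right
      rw [e1, e2, c1]
      exact ⟨rfl, trivial, c2⟩
    · left
      rw [e1, e2, c1, c2]
      exact ⟨Or.inl (by omega), trivial, rfl⟩
  · have e0 : s % 6 = 5 := by omega
    have e1 : (s + 1) % 6 = 0 := by omega
    have e2 : (s + 1) / 6 = s / 6 + 1 := by omega
    left
    rw [e0, e1, e2]
    exact ⟨Or.inl rfl, trivial, rfl⟩

theorem Dat.Fit.code_adj {D : Dat} {i j : ℕ} (F : D.Fit i j) {z z' : Vert} (h : D.Ok z) (h' : D.Ok z')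
    (e : D.E z z') : Adj (D.code i j z) (D.code i j z') := by
  rcases z with ⟨v, t⟩ | ⟨C, s⟩ | ⟨v, C, q⟩ <;> rcases z' with ⟨v', t'⟩ | ⟨C', s'⟩ | ⟨v', C', q'⟩
  · obtain ⟨rfl, e⟩ := e
    rcases e with e | e | e | e
    · exact F.cyc_succ h.1 h.2 h'.2 (Or.inl e)
    · exact (F.cyc_succ h.1 h'.2 h.2 (Or.inl e)).symm
    · exact (F.cyc_succ h.1 h'.2 h.2 (Or.inr e)).symm
    · exact F.cyc_succ h.1 h.2 h'.2 (Or.inr e)
  · exact e.elim
  · obtain ⟨a1, a2⟩ := F.pos_lt h
    obtain ⟨b1, b2⟩ := F.pos_lt h'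
    obtain ⟨rfl, rfl, e⟩ := e
    rw [Dat.code, Dat.code, cd_adj F a1 b1 a2 b2]
    right; right
    simp only [Dat.pos]
    have hr := D.rt_le v C'
    have e1 : t / 12 = C' := by omega
    have e2 : t % 12 = D.rt v C' := by omega
    have e3 := loc17 (D.sg v C')
    rw [e1, e2]
    unfold Dat.rt
    rw [e3.2]
    exact ⟨trivial, rfl, e3.1⟩
  · exact e.elim
  · obtain ⟨rfl, e⟩ := e
    rcases e with e | e
    · subst e
      exact F.cls_succ h.1 h.2.1 h'.2.2
    · subst e
      exact (F.cls_succ h.1 h.2.1 h.2.2).symm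
  · obtain ⟨a1, a2⟩ := F.pos_lt h
    obtain ⟨b1, b2⟩ := F.pos_lt h'
    obtain ⟨rfl, rfl, e⟩ := e
    rw [Dat.code, Dat.code, cd_adj F a1 b1 a2 b2]
    right; right
    simp only [Dat.pos]
    have e1 : s / 6 = v' := by omega
    have e2 : s % 6 = 0 := by omega
    rw [e1, e2]
    exact ⟨rfl, trivial, loc18 _⟩
  · obtain ⟨a1, a2⟩ := F.pos_lt h
    obtain ⟨b1, b2⟩ := F.pos_lt h'
    obtain ⟨rfl, rfl, e⟩ := e
    rw [Dat.code, Dat.code, cd_adj F a1 b1 a2 b2]
    right; right
    simp only [Dat.pos]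
    have hr := D.rt_le v' C
    have e1 : t' / 12 = C := by omega
    have e2 : t' % 12 = D.rt v' C := by omega
    have e3 := loc17 (D.sg v' C)
    rw [e1, e2]
    unfold Dat.rt
    rw [e3.2]
    exact ⟨trivial, rfl, e3.1.symm⟩
  · obtain ⟨a1, a2⟩ := F.pos_lt h
    obtain ⟨b1, b2⟩ := F.pos_lt h'
    obtain ⟨rfl, rfl, e⟩ := e
    rw [Dat.code, Dat.code, cd_adj F a1 b1 a2 b2]
    right; right
    simp only [Dat.pos]
    have e1 : s' / 6 = v := by omega
    have e2 : s' % 6 = 0 := by omega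
    rw [e1, e2]
    exact ⟨rfl, trivial, (loc18 _).symm⟩
  · obtain ⟨a1, a2⟩ := F.pos_lt h
    obtain ⟨b1, b2⟩ := F.pos_lt h'
    obtain ⟨h1, h2, h3, h4, h5, h6⟩ := h
    obtain ⟨-, -, -, -, h5', h6'⟩ := h'
    obtain ⟨rfl, rfl, e⟩ := e
    rw [Dat.code, Dat.code, cd_adj F a1 b1 a2 b2]
    right; right
    simp only [Dat.pos]
    refine ⟨trivial, trivial, ?_⟩
    rcases e with e | e
    · subst e
      exact loc16 _ q (by omega) h5
    · subst e
      exact (loc16 _ q' (by omega) h5').symm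

/-- the set of the codes of the vertices -/
def Dat.Z (D : Dat) (i j : ℕ) (x : List Bool) : Prop := ∃ z, D.Ok z ∧ D.code i j z = x

theorem Dat.Fit.no_face {D : Dat} {i j : ℕ} (F : D.Fit i j) (x y y' z : List Bool) (hx : D.Z i j x)
    (hy : D.Z i j y) (hy' : D.Z i j y') (hz : D.Z i j z) (h1 : Adj x y) (h2 : Adj x y') (h3 : Adj y z)
    (h4 : Adj y' z) (hne : y ≠ y') : x = z := by
  obtain ⟨x, ox, rfl⟩ := hx
  obtain ⟨y, oy, rfl⟩ := hy
  obtain ⟨y', oy', rfl⟩ := hy'
  obtain ⟨z, oz, rfl⟩ := hz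
  rw [Dat.no_square ox oy oy' oz (F.adj_code ox oy h1) (F.adj_code ox oy' h2) (F.adj_code oy oz h3)
    (F.adj_code oy' oz h4) fun e => hne (by rw [e])]

end Pool.Agent.Lib.ThrHard
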