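import Pool.Agent.Lib.MP_a221bc_thr.Vert

/-!
# Dominating sets of minimum size give satisfying assignments
-/

namespace Pool.Agent.Lib.ThrHard

/-- a dominating set as large as a packing is tight -/
theorem tight {S P : Finset Vert} {N : Vert → Vert → Prop} (hd : ∀ y ∈ P, ∃ s ∈ S, N y s)
    (hdisj : ∀ y ∈ P, ∀ y' ∈ P, ∀ s ∈ S, N y s → N y' s → y = y') (hc : S.card ≤ P.card) :
    (∀ s ∈ S, ∃ y ∈ P, N y s) ∧ ∀ y ∈ P, ∀ s ∈ S, ∀ s' ∈ S, N y s → N y s' → s = s' := by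
  choose! f hf using hd
  have hinj : Set.InjOn f P := by
    intro y hy y' hy' e
    refine hdisj y hy y' hy' (f y) (hf y hy).1 (hf y hy).2 ?_
    rw [e]
    exact (hf y' hy').2
  have himg : P.image f = S := by
    apply Finset.eq_of_subset_of_card_le
    · intro s hs
      obtain ⟨y, hy, rfl⟩ := Finset.mem_image.1 hs
      exact (hf y hy).1
    · rwa [Finset.card_image_of_injOn hinj]
  have h1 : ∀ s ∈ S, ∃ y ∈ P, f y = s := by
    intro s hs
    rw [← himg] at hs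
    obtain ⟨y, hy, e⟩ := Finset.mem_image.1 hs
    exact ⟨y, hy, e⟩
  refine ⟨fun s hs => ?_, fun y hy s hs s' hs' h h' => ?_⟩
  · obtain ⟨y, hy, rfl⟩ := h1 s hs
    exact ⟨y, hy, (hf y hy).2⟩
  · have h2 : ∀ t ∈ S, N y t → t = f y := by
      intro t ht hyt
      obtain ⟨z, hz, rfl⟩ := h1 t ht
      rw [hdisj y hy z hz (f z) ht hyt (hf z hz).2]
    rw [h2 s hs h, h2 s' hs' h']

namespace Dat

variable (D : Dat)

/-- the cells of the bridges -/
def cells : Finset (ℕ × ℕ) :=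
  (Finset.range D.V ×ˢ Finset.range D.M).filter fun p => D.act p.2 = true ∧ D.inc p.1 p.2 = true

/-- the active clauses -/
def acts : Finset ℕ := (Finset.range D.M).filter fun C => D.act C = true

/-- the packings -/
def P (r : ℕ) : Finset Vert :=
  ((Finset.range D.V ×ˢ Finset.range (4 * D.M)).image fun p => Vert.cyc p.1 (3 * p.2 + 2)) ∪
    (((D.acts ×ˢ Finset.range (2 * D.V)).image fun p => Vert.cls p.1 (3 * p.2 + r)) ∪
      D.cells.image fun p => Vert.br p.1 p.2 2)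

/-- the size of the packings -/
def K : ℕ := D.V * (4 * D.M) + (D.acts.card * (2 * D.V) + D.cells.card)

theorem mem_P {r : ℕ} {y : Vert} : y ∈ D.P r ↔
    (∃ v k, v < D.V ∧ k < 4 * D.M ∧ y = .cyc v (3 * k + 2)) ∨
    (∃ C k, C < D.M ∧ D.act C = true ∧ k < 2 * D.V ∧ y = .cls C (3 * k + r)) ∨
    ∃ v C, v < D.V ∧ C < D.M ∧ D.act C = true ∧ D.inc v C = true ∧ y = .br v C 2 := by
  unfold P acts cells
  simp only [Finset.mem_union, Finset.mem_image, Finset.mem_product, Finset.mem_range,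
    Finset.mem_filter, Prod.exists]
  constructor
  · rintro (⟨v, k, ⟨h1, h2⟩, rfl⟩ | ⟨C, k, ⟨⟨h1, h2⟩, h3⟩, rfl⟩ | ⟨v, C, ⟨⟨h1, h2⟩, h3, h4⟩, rfl⟩)
    · exact Or.inl ⟨v, k, h1, h2, rfl⟩
    · exact Or.inr (Or.inl ⟨C, k, h1, h2, h3, rfl⟩)
    · exact Or.inr (Or.inr ⟨v, C, h1, h2, h3, h4, rfl⟩)
  · rintro (⟨v, k, h1, h2, rfl⟩ | ⟨C, k, h1, h2, h3, rfl⟩ | ⟨v, C, h1, h2, h3, h4, rfl⟩)
    · exact Or.inl ⟨v, k, ⟨h1, h2⟩, rfl⟩
    · exact Or.inr (Or.inl ⟨C, k, ⟨⟨h1, h2⟩, h3⟩, rfl⟩)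
    · exact Or.inr (Or.inr ⟨v, C, ⟨⟨h1, h2⟩, h3, h4⟩, rfl⟩)

theorem card_P (r : ℕ) : (D.P r).card = D.K := by
  unfold P K
  rw [Finset.card_union_of_disjoint, Finset.card_union_of_disjoint, Finset.card_image_of_injective,
    Finset.card_image_of_injective, Finset.card_image_of_injective, Finset.card_product,
    Finset.card_product, Finset.card_range, Finset.card_range, Finset.card_range]
  · rintro ⟨a, b⟩ ⟨a', b'⟩ h
    simpa using h
  · rintro ⟨a, b⟩ ⟨a', b'⟩ h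
    simpa using h
  · rintro ⟨a, b⟩ ⟨a', b'⟩ h
    simpa using h
  · rw [Finset.disjoint_left]
    intro y h1 h2
    obtain ⟨p, -, rfl⟩ := Finset.mem_image.1 h1
    obtain ⟨q, -, e⟩ := Finset.mem_image.1 h2
    simp at e
  · rw [Finset.disjoint_left]
    intro y h1 h2
    obtain ⟨p, -, rfl⟩ := Finset.mem_image.1 h1
    rcases Finset.mem_union.1 h2 with h2 | h2
    · obtain ⟨q, -, e⟩ := Finset.mem_image.1 h2
      simp at e
    · obtain ⟨q, -, e⟩ := Finset.mem_image.1 h2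
      simp at e

/-- closed neighbourhoods -/
def N (y s : Vert) : Prop := s = y ∨ D.E y s

theorem rt_cases (v C : ℕ) : D.rt v C = 0 ∨ D.rt v C = 4 := by
  unfold rt
  split_ifs
  · exact Or.inl rfl
  · exact Or.inr rfl

theorem P_disj {r : ℕ} (hr : r = 1 ∨ r = 2) {y y' s : Vert} (hy : y ∈ D.P r) (hy' : y' ∈ D.P r)
    (h : D.N y s) (h' : D.N y' s) : y = y' := by
  rw [mem_P] at hy hy'
  rcases hy with ⟨v, k, h1, h2, rfl⟩ | ⟨C, k, h1, h2, h3, rfl⟩ | ⟨v, C, h1, h2, h3, h4, rfl⟩ <;>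
  rcases hy' with ⟨v', k', h1', h2', rfl⟩ | ⟨C', k', h1', h2', h3', rfl⟩ |
    ⟨v', C', h1', h2', h3', h4', rfl⟩ <;>
  rcases s with ⟨w, t⟩ | ⟨w, t⟩ | ⟨w, t, q⟩ <;>
  simp only [N, E, Nx, Vert.cyc.injEq, Vert.cls.injEq, Vert.br.injEq, reduceCtorEq, false_or, or_false,
    false_and, and_true] at h h' ⊢ <;>
  (try (have r1 := D.rt_cases v t)) <;> (try (have r2 := D.rt_cases v' t)) <;>
  (try omega)

/-- a dominating set -/
structure Dom (S : Finset Vert) : Prop where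
  ok : ∀ s ∈ S, D.Ok s
  dom : ∀ z, D.Ok z → ∃ s ∈ S, D.N z s
  card : S.card ≤ D.K

variable {D}

theorem P_ok {r : ℕ} (hr : r = 1 ∨ r = 2) {y : Vert} (hy : y ∈ D.P r) : D.Ok y := by
  rcases D.mem_P.1 hy with ⟨v, k, h1, h2, rfl⟩ | ⟨C, k, h1, h2, h3, rfl⟩ | ⟨v, C, h1, h2, h3, h4, rfl⟩
  · exact ⟨h1, by omega⟩
  · exact ⟨h1, h2, by omega⟩
  · exact ⟨h1, h2, h3, h4, by norm_num, by norm_num⟩

namespace Dom

variable {S : Finset Vert}

theorem tight (H : D.Dom S) {r : ℕ} (hr : r = 1 ∨ r = 2) : (∀ s ∈ S, ∃ y ∈ D.P r, D.N y s) ∧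
    ∀ y ∈ D.P r, ∀ s ∈ S, ∀ s' ∈ S, D.N y s → D.N y s' → s = s' :=
  ThrHard.tight (fun y hy => H.dom y (P_ok hr hy)) (fun _ hy _ hy' _ _ h h' => D.P_disj hr hy hy' h h')
    (by rw [D.card_P]; exact H.card)

theorem cls_lt (H : D.Dom S) {C s : ℕ} (h : Vert.cls C s ∈ S) : s < 6 * D.V := by
  obtain ⟨y, hy, hn⟩ := (H.tight (Or.inl rfl)).1 _ h
  rcases D.mem_P.1 hy with ⟨v, k, h1, h2, rfl⟩ | ⟨C', k, h1, h2, h3, rfl⟩ | ⟨v, C', h1, h2, h3, h4, rfl⟩ <;>
    simp only [N, E, Vert.cls.injEq, reduceCtorEq, false_or] at hn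
  · omega
  · omega

theorem cls_pos (H : D.Dom S) {C s : ℕ} (h : Vert.cls C s ∈ S) : 1 ≤ s := by
  obtain ⟨y, hy, hn⟩ := (H.tight (Or.inr rfl)).1 _ h
  rcases D.mem_P.1 hy with ⟨v, k, h1, h2, rfl⟩ | ⟨C', k, h1, h2, h3, rfl⟩ | ⟨v, C', h1, h2, h3, h4, rfl⟩ <;>
    simp only [N, E, Vert.cls.injEq, reduceCtorEq, false_or] at hn
  · omega
  · omega

/-- no vertex of the path at a position divisible by three -/
theorem cls_not (H : D.Dom S) {C : ℕ} (hC : C < D.M) (ha : D.act C = true) :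
    ∀ k, k ≤ 2 * D.V → Vert.cls C (3 * k) ∉ S := by
  intro k
  induction k with
  | zero =>
    intro _ h
    have := H.cls_pos h
    omega
  | succ k ih =>
    intro hk h
    have ih := ih (by omega)
    have y1 : Vert.cls C (3 * k + 1) ∈ D.P 1 := D.mem_P.2 (Or.inr (Or.inl ⟨C, k, hC, ha, by omega, rfl⟩))
    have y2 : Vert.cls C (3 * k + 2) ∈ D.P 2 := D.mem_P.2 (Or.inr (Or.inl ⟨C, k, hC, ha, by omega, rfl⟩))
    obtain ⟨s, hs, hn⟩ := H.dom _ (P_ok (Or.inl rfl) y1)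
    have h1 : D.N (Vert.cls C (3 * k + 2)) (Vert.cls C (3 * (k + 1))) := Or.inr ⟨rfl, Or.inl (by omega)⟩
    have h2 : ∃ t, s = Vert.cls C t ∧ (t = 3 * k + 1 ∨ t = 3 * k + 2) := by
      rcases s with ⟨w, t⟩ | ⟨w, t⟩ | ⟨w, t, q⟩ <;>
        simp only [N, E, Vert.cls.injEq, reduceCtorEq, false_or] at hn
      · have e : w = C := by omega
        subst e
        have h3 : t ≠ 3 * k := by
          rintro rfl
          exact ih hs
        exact ⟨t, rfl, by omega⟩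
      · omega
    obtain ⟨t, rfl, ht⟩ := h2
    have h3 : D.N (Vert.cls C (3 * k + 2)) (Vert.cls C t) := by
      rcases ht with rfl | rfl
      · exact Or.inr ⟨rfl, Or.inr rfl⟩
      · exact Or.inl rfl
    have h4 := (H.tight (Or.inr rfl)).2 _ y2 _ hs _ h h3 h1
    rw [Vert.cls.injEq] at h4
    omega

theorem br_uniq (H : D.Dom S) {v C q q' : ℕ} (h : Vert.br v C q ∈ S) (h' : Vert.br v C q' ∈ S) : q = q' := by
  obtain ⟨h1, h2, h3, h4, h5, h6⟩ := H.ok _ h
  obtain ⟨-, -, -, -, h5', h6'⟩ := H.ok _ h'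
  have y : Vert.br v C 2 ∈ D.P 1 := D.mem_P.2 (Or.inr (Or.inr ⟨v, C, h1, h2, h3, h4, rfl⟩))
  have f : ∀ p, 1 ≤ p → p ≤ 3 → D.N (Vert.br v C 2) (Vert.br v C p) := by
    intro p hp hp'
    by_cases e : p = 2
    · subst e
      exact Or.inl rfl
    · exact Or.inr ⟨rfl, rfl, by omega⟩
  have := (H.tight (Or.inl rfl)).2 _ y _ h _ h' (f _ h5 h6) (f _ h5' h6')
  rw [Vert.br.injEq] at this
  exact this.2.2

theorem br_one (H : D.Dom S) {v C : ℕ} : Vert.br v C 1 ∉ S := by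
  intro h
  obtain ⟨h1, h2, h3, h4, -, -⟩ := H.ok _ h
  obtain ⟨s, hs, hn⟩ := H.dom (Vert.br v C 3) ⟨h1, h2, h3, h4, by norm_num, le_rfl⟩
  rcases s with ⟨w, t⟩ | ⟨w, t⟩ | ⟨w, t, q⟩ <;>
    simp only [N, E, Vert.br.injEq, reduceCtorEq, false_or] at hn
  · omega
  · obtain ⟨rfl, -, rfl⟩ := hn
    have e : 6 * v = 3 * (2 * v) := by ring
    rw [e] at hs
    exact H.cls_not h2 h3 (2 * v) (by omega) hs
  · have e : w = v ∧ t = C := by omega
    obtain ⟨rfl, rfl⟩ := e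
    have := H.br_uniq h hs
    omega

theorem cyc_dom (H : D.Dom S) {v t : ℕ} (hv : v < D.V) (ht : t < 12 * D.M) :
    ∃ t', Vert.cyc v t' ∈ S ∧ (t' = t ∨ Nx (12 * D.M) t t') := by
  obtain ⟨s, hs, hn⟩ := H.dom (Vert.cyc v t) ⟨hv, ht⟩
  rcases s with ⟨w, t'⟩ | ⟨w, t'⟩ | ⟨w, t', q⟩ <;>
    simp only [N, E, Vert.cyc.injEq, reduceCtorEq, false_or] at hn
  · have e : w = v := by
      rcases hn with hn | hn
      · exact hn.1
      · exact hn.1.symm
    subst e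
    refine ⟨t', hs, ?_⟩
    rcases hn with hn | hn
    · exact Or.inl hn.2
    · exact Or.inr hn.2
  · obtain ⟨rfl, rfl, -⟩ := hn
    exact absurd hs H.br_one

theorem cyc_uniq (H : D.Dom S) {v k t t' : ℕ} (hv : v < D.V) (hk : k < 4 * D.M) (h : Vert.cyc v t ∈ S)
    (h' : Vert.cyc v t' ∈ S) (ht : t = 3 * k + 2 ∨ Nx (12 * D.M) (3 * k + 2) t)
    (ht' : t' = 3 * k + 2 ∨ Nx (12 * D.M) (3 * k + 2) t') : t = t' := by
  have y : Vert.cyc v (3 * k + 2) ∈ D.P 1 := D.mem_P.2 (Or.inl ⟨v, k, hv, hk, rfl⟩)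
  have f : ∀ u, (u = 3 * k + 2 ∨ Nx (12 * D.M) (3 * k + 2) u) → D.N (Vert.cyc v (3 * k + 2)) (Vert.cyc v u) := by
    rintro u (rfl | hu)
    · exact Or.inl rfl
    · exact Or.inr ⟨rfl, hu⟩
  have := (H.tight (Or.inl rfl)).2 _ y _ h _ h' (f _ ht) (f _ ht')
  rw [Vert.cyc.injEq] at this
  exact this.2

theorem phase_step (H : D.Dom S) {v k : ℕ} (hv : v < D.V) (hk : k + 1 < 4 * D.M)
    (h : Vert.cyc v (3 * k + 1) ∈ S) : Vert.cyc v (3 * (k + 1) + 1) ∈ S := by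
  obtain ⟨t', hs, ht'⟩ := H.cyc_dom hv (show 3 * k + 3 < 12 * D.M by omega)
  unfold Nx at ht'
  have h1 : t' ≠ 3 * k + 2 := by
    rintro rfl
    have := H.cyc_uniq hv (show k < 4 * D.M by omega) h hs (Or.inr (by unfold Nx; omega)) (Or.inl rfl)
    omega
  have h2 : t' ≠ 3 * k + 3 := by
    rintro rfl
    have := H.cyc_uniq hv (show k < 4 * D.M by omega) h hs (Or.inr (by unfold Nx; omega))
      (Or.inr (by unfold Nx; omega))
    omega
  have e : t' = 3 * (k + 1) + 1 := by omega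
  rwa [e] at hs

theorem phase_wrap (H : D.Dom S) {v k : ℕ} (hv : v < D.V) (hk : k + 1 = 4 * D.M)
    (h : Vert.cyc v (3 * k + 1) ∈ S) : Vert.cyc v 1 ∈ S := by
  obtain ⟨t', hs, ht'⟩ := H.cyc_dom hv (show 0 < 12 * D.M by omega)
  unfold Nx at ht'
  have h1 : t' ≠ 3 * k + 2 := by
    rintro rfl
    have := H.cyc_uniq hv (show k < 4 * D.M by omega) h hs (Or.inr (by unfold Nx; omega)) (Or.inl rfl)
    omega
  have h2 : t' ≠ 0 := by
    rintro rfl
    have := H.cyc_uniq hv (show k < 4 * D.M by omega) h hs (Or.inr (by unfold Nx; omega))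
      (Or.inr (by unfold Nx; omega))
    omega
  have e : t' = 1 := by omega
  rwa [e] at hs

theorem phase_all (H : D.Dom S) {v k : ℕ} (hv : v < D.V) (hk : k < 4 * D.M)
    (h : Vert.cyc v (3 * k + 1) ∈ S) {m : ℕ} (hm : m < 4 * D.M) : Vert.cyc v (3 * m + 1) ∈ S := by
  have up : ∀ a, Vert.cyc v (3 * a + 1) ∈ S → ∀ d, a + d < 4 * D.M → Vert.cyc v (3 * (a + d) + 1) ∈ S := by
    intro a ha d
    induction d with
    | zero => intro _; exact ha
    | succ d ih =>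
      intro hd
      exact H.phase_step hv (by omega) (ih (by omega))
  have h1 : Vert.cyc v (3 * (4 * D.M - 1) + 1) ∈ S := by
    have := up k h (4 * D.M - 1 - k) (by omega)
    rwa [show k + (4 * D.M - 1 - k) = 4 * D.M - 1 by omega] at this
  have h2 : Vert.cyc v 1 ∈ S := H.phase_wrap hv (by omega) h1
  have := up 0 h2 m (by omega)
  rwa [Nat.zero_add] at this

/-- **A small dominating set gives a satisfying assignment.** -/
theorem sat (H : D.Dom S) : ∃ x : ℕ → Bool, ∀ C < D.M, D.act C = true →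
    ∃ v < D.V, D.inc v C = true ∧ x v = D.sg v C := by
  classical
  refine ⟨fun v => decide (Vert.cyc v 1 ∉ S), fun C hC ha => ?_⟩
  have key : ∃ v, Vert.br v C 3 ∈ S := by
    by_contra hno
    push Not at hno
    have step : ∀ k, k ≤ 2 * D.V → Vert.cls C (3 * k + 1) ∈ S := by
      intro k
      induction k with
      | zero =>
        intro _
        obtain ⟨s, hs, hn⟩ := H.dom (Vert.cls C 0) ⟨hC, ha, by omega⟩
        rcases s with ⟨w, t⟩ | ⟨w, t⟩ | ⟨w, t, q⟩ <;>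
          simp only [N, E, Vert.cls.injEq, reduceCtorEq, false_or, or_false] at hn
        · have e : w = C := by omega
          subst e
          have := H.cls_pos hs
          have e : t = 3 * 0 + 1 := by omega
          rwa [e] at hs
        · obtain ⟨rfl, rfl, -⟩ := hn
          exact absurd hs (hno w)
      | succ k ih =>
        intro hk
        have ih := ih (by omega)
        have y1 : Vert.cls C (3 * k + 1) ∈ D.P 1 :=
          D.mem_P.2 (Or.inr (Or.inl ⟨C, k, hC, ha, by omega, rfl⟩))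
        obtain ⟨s, hs, hn⟩ := H.dom (Vert.cls C (3 * (k + 1))) ⟨hC, ha, by omega⟩
        rcases s with ⟨w, t⟩ | ⟨w, t⟩ | ⟨w, t, q⟩ <;>
          simp only [N, E, Vert.cls.injEq, reduceCtorEq, false_or] at hn
        · have e : w = C := by omega
          subst e
          have h1 : t ≠ 3 * (k + 1) := by
            rintro rfl
            exact H.cls_not hC ha (k + 1) hk hs
          have h2 : t ≠ 3 * k + 2 := by
            rintro rfl
            have := (H.tight (Or.inl rfl)).2 _ y1 _ ih _ hs (Or.inl rfl) (Or.inr ⟨rfl, Or.inl rfl⟩)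
            rw [Vert.cls.injEq] at this
            omega
          have e : t = 3 * (k + 1) + 1 := by omega
          rwa [e] at hs
        · obtain ⟨rfl, rfl, -⟩ := hn
          exact absurd hs (hno w)
    have := H.cls_lt (step (2 * D.V) le_rfl)
    omega
  obtain ⟨v, hv3⟩ := key
  obtain ⟨hv, -, -, hi, -, -⟩ := H.ok _ hv3
  refine ⟨v, hv, hi, ?_⟩
  have hu : Vert.cyc v (12 * C + D.rt v C) ∈ S := by
    obtain ⟨s, hs, hn⟩ := H.dom (Vert.br v C 1) ⟨hv, hC, ha, hi, le_rfl, by norm_num⟩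
    rcases s with ⟨w, t⟩ | ⟨w, t⟩ | ⟨w, t, q⟩ <;>
      simp only [N, E, Vert.br.injEq, reduceCtorEq, false_or] at hn
    · obtain ⟨rfl, -, rfl⟩ := hn
      exact hs
    · omega
    · have e : w = v ∧ t = C := by omega
      obtain ⟨rfl, rfl⟩ := e
      have := H.br_uniq hv3 hs
      omega
  have hM : 1 ≤ D.M := by omega
  rcases hsg : D.sg v C with _ | _
  · have e : D.rt v C = 4 := by
      unfold rt
      rw [hsg]
      rfl
    rw [e, show 12 * C + 4 = 3 * (4 * C + 1) + 1 by ring] at hu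
    have h1 := H.phase_all hv (show 4 * C + 1 < 4 * D.M by omega) hu (show 0 < 4 * D.M by omega)
    simpa using h1
  · have e : D.rt v C = 0 := by
      unfold rt
      rw [hsg]
      rfl
    rw [e, Nat.add_zero] at hu
    rw [decide_eq_true_eq]
    intro h1
    -- the position before
    obtain ⟨k, hk, hnx⟩ : ∃ k, k < 4 * D.M ∧ Nx (12 * D.M) (3 * k + 2) (12 * C) := by
      rcases Nat.eq_zero_or_pos C with h0 | h0
      · exact ⟨4 * D.M - 1, by omega, by unfold Nx; omega⟩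
      · exact ⟨4 * C - 1, by omega, by unfold Nx; omega⟩
    have h2 := H.phase_all hv (show 0 < 4 * D.M by omega) (by simpa using h1) hk
    have := H.cyc_uniq hv hk hu h2 (Or.inr hnx) (Or.inr (by unfold Nx; omega))
    omega

end Dom

end Dat

end Pool.Agent.Lib.ThrHard
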