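import Pool.Agent.Lib.MP_a221bc_thr.Statement

/-!
# Threshold functions have small weights (a crude bound by elimination)
-/

namespace Pool.Agent.Lib.ThrHard

open Pool.Agent.Lib.EsopHard

/-- scalar product -/
def dz : List ℤ → List ℤ → ℤ
  | a :: as, u :: us => a * u + dz as us
  | _, _ => 0

theorem dz_comb (p r : ℤ) : ∀ a a' u : List ℤ, a.length = a'.length →
    dz (List.zipWith (fun x y => p * x + r * y) a a') u = p * dz a u + r * dz a' u
  | [], [], _, _ => by simp [dz]
  | [], _ :: _, _, h => by simp at h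
  | _ :: _, [], _, h => by simp at h
  | _ :: _, _ :: _, [], _ => by simp [dz]
  | x :: a, y :: a', z :: u, h => by
    rw [List.zipWith_cons_cons, dz, dz, dz, dz_comb p r a a' u (by simpa using h)]
    ring

theorem dz_smul (k : ℤ) : ∀ a u : List ℤ, dz a (u.map fun y => k * y) = k * dz a u
  | [], _ => by simp [dz]
  | _ :: _, [] => by simp [dz]
  | x :: a, z :: u => by
    rw [List.map_cons, dz, dz, dz_smul k a u]
    ring

theorem dz_bound {A B : ℤ} (hA : 0 ≤ A) (hB : 0 ≤ B) : ∀ a u : List ℤ, (∀ x ∈ a, |x| ≤ A) →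
    (∀ y ∈ u, |y| ≤ B) → |dz a u| ≤ a.length * (A * B)
  | [], _, _, _ => by simp [dz]
  | x :: a, [], _, _ => by
    rw [dz, abs_zero]
    · positivity
    · intro _ _ _ _ _ h
      cases h
  | x :: a, z :: u, h1, h2 => by
    have ih := dz_bound hA hB a u (fun x hx => h1 x (List.mem_cons_of_mem _ hx))
      (fun y hy => h2 y (List.mem_cons_of_mem _ hy))
    have h3 : |x * z| ≤ A * B := by
      rw [abs_mul]
      exact mul_le_mul (h1 x (List.mem_cons_self ..)) (h2 z (List.mem_cons_self ..)) (abs_nonneg _) hA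
    rw [dz, List.length_cons]
    push_cast
    have h4 := abs_add_le (x * z) (dz a u)
    nlinarith

/-- the exponent of the bound -/
def bet : ℕ → ℕ → ℕ
  | 0, _ => 0
  | m + 1, e => m + 1 + e + bet m (2 * e + 1)

theorem bet_le : ∀ m e : ℕ, bet m e + (e + 1) ≤ m * m + (e + 1) * 2 ^ m
  | 0, e => by simp [bet]
  | m + 1, e => by
    have ih := bet_le m (2 * e + 1)
    have e1 : (2 * e + 1 + 1) * 2 ^ m = (e + 1) * 2 ^ (m + 1) := by
      rw [pow_succ]
      ring
    rw [e1] at ih
    rw [bet]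
    nlinarith

/-- the system `F` of inequalities has the solution `u / q` -/
def Sol (F : Set (List ℤ × ℤ)) (u : List ℤ) (q : ℤ) : Prop := ∀ c ∈ F, c.2 * q ≤ dz c.1 u

theorem succ_le_pow (m : ℕ) : ((m : ℤ) + 1) ≤ 2 ^ (m + 1) := by
  have h := Nat.lt_two_pow_self (n := m + 1)
  have h' : ((m + 1 : ℕ) : ℤ) ≤ ((2 ^ (m + 1) : ℕ) : ℤ) := by exact_mod_cast h.le
  push_cast at h'
  exact h'

/-- **Elimination.** -/
theorem elim : ∀ (m e : ℕ) (F : Set (List ℤ × ℤ)), F.Finite →
    (∀ c ∈ F, c.1.length = m ∧ (∀ x ∈ c.1, |x| ≤ 2 ^ e) ∧ |c.2| ≤ 2 ^ e) →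
    (∃ u q, u.length = m ∧ 0 < q ∧ Sol F u q) →
    ∃ u q, u.length = m ∧ 0 < q ∧ q ≤ 2 ^ bet m e ∧ (∀ y ∈ u, |y| ≤ 2 ^ bet m e) ∧ Sol F u q
  | 0, e, F, _, hF, hs => by
    obtain ⟨u, q, hu, hq, hs⟩ := hs
    have hu0 : u = [] := List.length_eq_zero_iff.1 hu
    subst hu0
    refine ⟨[], 1, rfl, one_pos, by simp [bet], by simp, fun c hc => ?_⟩
    have h1 := hs c hc
    have h2 : c.1 = [] := List.length_eq_zero_iff.1 (hF c hc).1
    rw [h2] at h1 ⊢
    have e : dz [] ([] : List ℤ) = 0 := rfl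
    rw [e] at h1 ⊢
    nlinarith
  | m + 1, e, F, hfin, hF, hs => by
    obtain ⟨u, q, hu, hq, hs⟩ := hs
    obtain ⟨t, u, rfl⟩ : ∃ t u', u = t :: u' := List.exists_cons_of_length_eq_add_one hu
    have hu' : u.length = m := by simpa using hu
    have shape : ∀ c ∈ F, ∃ α a, c.1 = α :: a ∧ a.length = m := by
      intro c hc
      obtain ⟨α, a, h⟩ := List.exists_cons_of_length_eq_add_one (hF c hc).1
      refine ⟨α, a, h, ?_⟩
      have := (hF c hc).1
      rw [h] at this
      simpa using this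
    let hd : List ℤ × ℤ → ℤ := fun c => c.1.headI
    let comb : List ℤ × ℤ → List ℤ × ℤ → List ℤ × ℤ := fun c c' =>
      (List.zipWith (fun x y => -hd c' * x + hd c * y) c.1.tail c'.1.tail, -hd c' * c.2 + hd c * c'.2)
    let F' : Set (List ℤ × ℤ) := ((fun c : List ℤ × ℤ => (c.1.tail, c.2)) '' {c ∈ F | hd c = 0}) ∪
      Set.image2 comb {c ∈ F | 0 < hd c} {c ∈ F | hd c < 0}
    have hfin' : F'.Finite := by
      refine Set.Finite.union ((hfin.subset (fun c hc => hc.1)).image _) ?_
      exact Set.Finite.image2 _ (hfin.subset fun c hc => hc.1) (hfin.subset fun c hc => hc.1)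
    have hpe : (0 : ℤ) < 2 ^ e := by positivity
    have hpow : (2 : ℤ) ^ (2 * e + 1) = 2 * (2 ^ e * 2 ^ e) := by
      rw [pow_succ, two_mul, pow_add]
      ring
    have hle : (2 : ℤ) ^ e ≤ 2 ^ (2 * e + 1) := pow_le_pow_right₀ (by norm_num) (by omega)
    have mulb : ∀ p r x y : ℤ, |p| ≤ 2 ^ e → |r| ≤ 2 ^ e → |x| ≤ 2 ^ e → |y| ≤ 2 ^ e →
        |p * x + r * y| ≤ 2 ^ (2 * e + 1) := by
      intro p r x y h1 h2 h3 h4
      have e1 : |p * x| ≤ 2 ^ e * 2 ^ e := by
        rw [abs_mul]
        exact mul_le_mul h1 h3 (abs_nonneg _) hpe.le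
      have e2 : |r * y| ≤ 2 ^ e * 2 ^ e := by
        rw [abs_mul]
        exact mul_le_mul h2 h4 (abs_nonneg _) hpe.le
      have e3 := abs_add_le (p * x) (r * y)
      rw [hpow]
      linarith
    have hF' : ∀ c ∈ F', c.1.length = m ∧ (∀ x ∈ c.1, |x| ≤ 2 ^ (2 * e + 1)) ∧ |c.2| ≤ 2 ^ (2 * e + 1) := by
      rintro c (⟨c, ⟨hc, -⟩, rfl⟩ | ⟨c, ⟨hc, -⟩, c', ⟨hc', -⟩, rfl⟩)
      · obtain ⟨α, a, h1, h2⟩ := shape c hc
        obtain ⟨-, b2, b3⟩ := hF c hc
        rw [h1] at b2
        simp only [h1, List.tail_cons]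
        exact ⟨h2, fun x hx => (b2 x (List.mem_cons_of_mem _ hx)).trans hle, b3.trans hle⟩
      · obtain ⟨α, a, h1, h2⟩ := shape c hc
        obtain ⟨-, b2, b3⟩ := hF c hc
        obtain ⟨α', a', h1', h2'⟩ := shape c' hc'
        obtain ⟨-, b2', b3'⟩ := hF c' hc'
        rw [h1] at b2
        rw [h1'] at b2'
        have k1 := b2 α (List.mem_cons_self ..)
        have k2 : |-α'| ≤ 2 ^ e := by
          rw [abs_neg]
          exact b2' α' (List.mem_cons_self ..)
        simp only [comb, hd, h1, h1', List.tail_cons, List.headI_cons]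
        refine ⟨by rw [List.length_zipWith, h2, h2', min_self], fun x hx => ?_, mulb _ _ _ _ k2 k1 b3 b3'⟩
        obtain ⟨y, z, hyz, rfl⟩ : ∃ y z, (y, z) ∈ a.zip a' ∧ -α' * y + α * z = x := by
          rw [← List.map_uncurry_zip_eq_zipWith] at hx
          obtain ⟨⟨y, z⟩, h3, h4⟩ := List.mem_map.1 hx
          exact ⟨y, z, h3, h4⟩
        exact mulb _ _ _ _ k2 k1 (b2 y (List.mem_cons_of_mem _ (List.of_mem_zip hyz).1))
          (b2' z (List.mem_cons_of_mem _ (List.of_mem_zip hyz).2))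
    have hsol' : Sol F' u q := by
      rintro c (⟨c, ⟨hc, h0⟩, rfl⟩ | ⟨c, ⟨hc, h0⟩, c', ⟨hc', h0'⟩, rfl⟩)
      · obtain ⟨α, a, h1, h2⟩ := shape c hc
        have h3 := hs c hc
        simp only [hd, h1, List.headI_cons] at h0
        subst h0
        rw [h1, dz] at h3
        simp only [h1, List.tail_cons]
        linarith
      · obtain ⟨α, a, h1, h2⟩ := shape c hc
        obtain ⟨α', a', h1', h2'⟩ := shape c' hc'
        have h3 := hs c hc
        have h3' := hs c' hc'
        rw [h1, dz] at h3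
        rw [h1', dz] at h3'
        simp only [hd, h1, List.headI_cons] at h0
        simp only [hd, h1', List.headI_cons] at h0'
        simp only [comb, hd, h1, h1', List.tail_cons, List.headI_cons]
        rw [dz_comb _ _ _ _ _ (by rw [h2, h2'])]
        nlinarith [mul_le_mul_of_nonneg_left h3 (show 0 ≤ -α' by linarith),
          mul_le_mul_of_nonneg_left h3' h0.le]
    obtain ⟨u', q', g1, g2, g3, g4, g5⟩ := elim m (2 * e + 1) F' hfin' hF' ⟨u, q, hu', hq, hsol'⟩
    set B : ℤ := 2 ^ bet m (2 * e + 1) with hB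
    have hB0 : 0 < B := by positivity
    have hbet : (2 : ℤ) ^ bet (m + 1) e = 2 ^ (m + 1) * (2 ^ e * B) := by
      rw [bet, pow_add, pow_add, hB]
      ring
    have hm1 : ((m : ℤ) + 1) * (2 ^ e * B) ≤ 2 ^ (m + 1) * (2 ^ e * B) :=
      mul_le_mul_of_nonneg_right (succ_le_pow m) (by positivity)
    have hone : (1 : ℤ) * (2 ^ e * B) ≤ 2 ^ (m + 1) * (2 ^ e * B) :=
      mul_le_mul_of_nonneg_right (one_le_pow₀ (by norm_num)) (by positivity)
    have hBle : B ≤ 2 ^ bet (m + 1) e := by
      rw [hbet]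
      have : (1 : ℤ) * B ≤ 2 ^ e * B := mul_le_mul_of_nonneg_right (one_le_pow₀ (by norm_num)) hB0.le
      linarith
    -- the value of the slack
    have slack : ∀ c ∈ F, ∀ α a, c.1 = α :: a → |c.2 * q' - dz a u'| ≤ ((m : ℤ) + 1) * (2 ^ e * B) := by
      intro c hc α a h1
      obtain ⟨b1, b2, b3⟩ := hF c hc
      rw [h1] at b1 b2
      have h2 : a.length = m := by simpa using b1
      have h3 := dz_bound hpe.le hB0.le a u' (fun x hx => b2 x (List.mem_cons_of_mem _ hx)) g4
      rw [h2] at h3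
      have h4 : |c.2 * q'| ≤ 2 ^ e * B := by
        rw [abs_mul]
        exact mul_le_mul b3 (by rw [abs_of_pos g2]; exact g3) (abs_nonneg _) hpe.le
      have h5 := abs_sub (c.2 * q') (dz a u')
      linarith
    by_cases hex : ∃ c ∈ F, 0 < hd c
    · have hne : {c ∈ F | 0 < hd c}.Nonempty := by
        obtain ⟨c, hc, h0⟩ := hex
        exact ⟨c, hc, h0⟩
      obtain ⟨c₀, ⟨hc₀, h00⟩, hmax⟩ := Set.exists_max_image {c ∈ F | 0 < hd c}
        (fun c => ((c.2 * q' - dz c.1.tail u' : ℤ) : ℚ) / ((hd c : ℤ) : ℚ))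
        (hfin.subset fun c hc => hc.1) hne
      obtain ⟨α₀, a₀, k1, k2⟩ := shape c₀ hc₀
      have hα : hd c₀ = α₀ := by simp only [hd, k1, List.headI_cons]
      rw [hα] at h00
      have hα_le : α₀ ≤ 2 ^ e := by
        have := (hF c₀ hc₀).2.1 α₀ (by rw [k1]; exact List.mem_cons_self ..)
        exact (le_abs_self _).trans this
      set N : ℤ := c₀.2 * q' - dz a₀ u' with hN
      refine ⟨N :: u'.map fun y => α₀ * y, α₀ * q', by simp [g1], mul_pos h00 g2, ?_, ?_, ?_⟩
      · rw [hbet]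
        have : α₀ * q' ≤ 2 ^ e * B := mul_le_mul hα_le g3 g2.le hpe.le
        linarith
      · intro y hy
        rw [hbet]
        rcases List.mem_cons.1 hy with rfl | hy
        · exact (slack c₀ hc₀ α₀ a₀ k1).trans hm1
        · obtain ⟨z, hz, rfl⟩ := List.mem_map.1 hy
          rw [abs_mul, abs_of_pos h00]
          have : α₀ * |z| ≤ 2 ^ e * B := mul_le_mul hα_le (g4 z hz) (abs_nonneg _) hpe.le
          linarith
      · intro c hc
        obtain ⟨α, a, h1, h2⟩ := shape c hc
        have hαc : hd c = α := by simp only [hd, h1, List.headI_cons]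
        rw [h1, dz, dz_smul]
        rcases lt_trichotomy α 0 with h | h | h
        · have hmem : comb c₀ c ∈ F' := Or.inr ⟨c₀, ⟨hc₀, by rw [hα]; exact h00⟩, c,
            ⟨hc, by rw [hαc]; exact h⟩, rfl⟩
          have h3 := g5 _ hmem
          simp only [comb, hd, h1, k1, List.tail_cons, List.headI_cons] at h3
          rw [dz_comb _ _ _ _ _ (by rw [h2, k2])] at h3
          rw [hN]
          linarith
        · have hmem : (c.1.tail, c.2) ∈ F' := Or.inl ⟨c, ⟨hc, by rw [hαc]; exact h⟩, rfl⟩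
          have h3 := g5 _ hmem
          simp only [h1, List.tail_cons] at h3
          have h4 := mul_le_mul_of_nonneg_left h3 h00.le
          rw [h]
          linarith
        · have h3 := hmax c ⟨hc, by rw [hαc]; exact h⟩
          simp only [hα, hαc, h1, k1, List.tail_cons] at h3
          have hq1 : (0 : ℚ) < (α : ℚ) := by exact_mod_cast h
          have hq2 : (0 : ℚ) < (α₀ : ℚ) := by exact_mod_cast h00
          rw [div_le_div_iff₀ hq1 hq2] at h3
          have h4 : (c.2 * q' - dz a u') * α₀ ≤ (c₀.2 * q' - dz a₀ u') * α := by exact_mod_cast h3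
          rw [hN]
          linarith
    · refine ⟨(-(((m : ℤ) + 1) * (2 ^ e * B))) :: u', q', by simp [g1], g2, g3.trans hBle, ?_, ?_⟩
      · intro y hy
        rcases List.mem_cons.1 hy with rfl | hy
        · rw [abs_neg, abs_of_nonneg (by positivity), hbet]
          exact hm1
        · exact (g4 y hy).trans hBle
      · intro c hc
        obtain ⟨α, a, h1, h2⟩ := shape c hc
        have hαc : hd c = α := by simp only [hd, h1, List.headI_cons]
        have hα : α ≤ 0 := by
          by_contra h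
          exact hex ⟨c, hc, by rw [hαc]; exact not_le.1 h⟩
        rw [h1, dz]
        rcases hα.lt_or_eq with h | h
        · have h3 := (abs_le.1 (slack c hc α a h1)).2
          have h4 : ((m : ℤ) + 1) * (2 ^ e * B) ≤ α * (-(((m : ℤ) + 1) * (2 ^ e * B))) := by
            have h5 : 0 ≤ ((m : ℤ) + 1) * (2 ^ e * B) := by positivity
            nlinarith
          linarith
        · have hmem : (c.1.tail, c.2) ∈ F' := Or.inl ⟨c, ⟨hc, by rw [hαc]; exact h⟩, rfl⟩
          have h3 := g5 _ hmem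
          simp only [h1, List.tail_cons] at h3
          rw [h]
          linarith

/-! ## Gates -/

/-- a bit as an integer -/
def num (b : Bool) : ℤ := if b = true then 1 else 0

theorem dz_num : ∀ (x : List Bool) (w : List ℤ), dz (x.map num) w = dot w x
  | [], [] => rfl
  | [], _ :: _ => rfl
  | _ :: _, [] => rfl
  | b :: x, z :: w => by
    rw [List.map_cons, dz, dot, dz_num x w]
    cases b <;> simp [num]

theorem dz_neg_num : ∀ (x : List Bool) (w : List ℤ), dz (x.map fun b => -num b) w = -dot w x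
  | [], [] => rfl
  | [], _ :: _ => rfl
  | _ :: _, [] => rfl
  | b :: x, z :: w => by
    rw [List.map_cons, dz, dot, dz_neg_num x w]
    cases b <;> simp [num] <;> ring

theorem abs_num_le (b : Bool) : |num b| ≤ 1 := by
  cases b <;> simp [num]

/-- **Small weights.** -/
theorem small_top {n : ℕ} (g : List ℤ × ℤ) (hg : g.1.length = n) : ∃ g' : List ℤ × ℤ, g'.1.length = n ∧
    (∀ w ∈ g'.1, |w| ≤ 2 ^ bet (n + 1) 0) ∧ |g'.2| ≤ 2 ^ bet (n + 1) 0 ∧
      ∀ x : List Bool, x.length = n → gateVal g' x = gateVal g x := by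
  let cst : List Bool → List ℤ × ℤ := fun x =>
    if gateVal g x = true then (-1 :: x.map num, 0) else (1 :: x.map fun b => -num b, 1)
  have hfin : (cst '' {x | x.length = n}).Finite := (List.finite_length_eq Bool n).image _
  have hF : ∀ c ∈ cst '' {x | x.length = n}, c.1.length = n + 1 ∧ (∀ x ∈ c.1, |x| ≤ 2 ^ 0) ∧ |c.2| ≤ 2 ^ 0 := by
    rintro c ⟨x, hx, rfl⟩
    replace hx : x.length = n := hx
    simp only [cst]
    split_ifs with h
    · refine ⟨by simp [hx], fun y hy => ?_, by simp⟩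
      rcases List.mem_cons.1 hy with rfl | hy
      · simp
      · obtain ⟨b, -, rfl⟩ := List.mem_map.1 hy
        simpa using abs_num_le b
    · refine ⟨by simp [hx], fun y hy => ?_, by simp⟩
      rcases List.mem_cons.1 hy with rfl | hy
      · simp
      · obtain ⟨b, -, rfl⟩ := List.mem_map.1 hy
        simpa using abs_num_le b
  have hs : ∃ u q, u.length = n + 1 ∧ 0 < q ∧ Sol (cst '' {x | x.length = n}) u q := by
    refine ⟨g.2 :: g.1, 1, by simp [hg], one_pos, ?_⟩
    rintro c ⟨x, hx, rfl⟩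
    simp only [cst]
    split_ifs with h
    · rw [dz, dz_num]
      rw [gateVal, decide_eq_true_eq] at h
      linarith
    · rw [dz, dz_neg_num]
      rw [gateVal, decide_eq_true_eq] at h
      linarith
  obtain ⟨u, q, h1, h2, -, h4, h5⟩ := elim (n + 1) 0 _ hfin hF hs
  obtain ⟨θ, w, rfl⟩ : ∃ θ w, u = θ :: w := List.exists_cons_of_length_eq_add_one h1
  refine ⟨(w, θ), by simpa using h1, fun y hy => h4 y (List.mem_cons_of_mem _ hy),
    h4 θ (List.mem_cons_self ..), fun x hx => ?_⟩
  have h6 := h5 (cst x) ⟨x, hx, rfl⟩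
  simp only [cst] at h6
  split_ifs at h6 with h
  · rw [dz, dz_num] at h6
    rw [h, gateVal, decide_eq_true_eq]
    linarith
  · rw [dz, dz_neg_num] at h6
    rw [Bool.not_eq_true] at h
    rw [h, gateVal, decide_eq_false_iff_not, not_le]
    linarith

theorem dot_bound {A : ℤ} (hA : 0 ≤ A) : ∀ (w : List ℤ) (x : List Bool), (∀ y ∈ w, |y| ≤ A) →
    |dot w x| ≤ w.length * A
  | [], _, _ => by simp [dot]
  | z :: w, [], _ => by
    rw [dot, abs_zero]
    · positivity
    · intro _ _ _ _ _ h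
      cases h
  | z :: w, b :: x, h => by
    have ih := dot_bound hA w x fun y hy => h y (List.mem_cons_of_mem _ hy)
    have h1 : |(if b = true then z else 0)| ≤ A := by
      split_ifs
      · exact h z (List.mem_cons_self ..)
      · simpa using hA
    have h2 := abs_add_le (if b = true then z else 0) (dot w x)
    rw [dot, List.length_cons]
    push_cast
    linarith

/-- exponent of the bound -/
def bexp (W : ℕ∞) (n : ℕ) : ℕ := W.toNat + n + bet (n + 1) 0 + 1

/-- **Small weights, with or without a bound on the weights.** -/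
theorem small {W : ℕ∞} {n : ℕ} (g : List ℤ × ℤ) (hg : g.1.length = n ∧ ∀ w ∈ g.1, (w.natAbs : ℕ∞) ≤ W) :
    ∃ g' : List ℤ × ℤ, (g'.1.length = n ∧ ∀ w ∈ g'.1, (w.natAbs : ℕ∞) ≤ W) ∧
    (∀ w ∈ g'.1, |w| < 2 ^ bexp W n) ∧ |g'.2| < 2 ^ bexp W n ∧
      ∀ x : List Bool, x.length = n → gateVal g' x = gateVal g x := by
  rcases eq_or_ne W ⊤ with rfl | hW
  · obtain ⟨g', h1, h2, h3, h4⟩ := small_top g hg.1
    have h5 : (2 : ℤ) ^ bet (n + 1) 0 < 2 ^ bexp ⊤ n := by
      apply pow_lt_pow_right₀ (by norm_num)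
      unfold bexp
      omega
    exact ⟨g', ⟨h1, fun w _ => le_top⟩, fun w hw => (h2 w hw).trans_lt h5, h3.trans_lt h5, h4⟩
  · obtain ⟨w₀, rfl⟩ := ENat.ne_top_iff_exists.1 hW
    obtain ⟨hl, hw⟩ := hg
    have hw' : ∀ w ∈ g.1, |w| ≤ (w₀ : ℤ) := by
      intro w h
      have h1 : w.natAbs ≤ w₀ := by exact_mod_cast hw w h
      rw [Int.abs_eq_natAbs]
      exact_mod_cast h1
    have hd : ∀ x, |dot g.1 x| ≤ (n : ℤ) * w₀ := by
      intro x
      have := dot_bound (Int.natCast_nonneg w₀) g.1 x hw'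
      rwa [hl] at this
    have hw0 : (w₀ : ℤ) + 1 ≤ 2 ^ w₀ := by
      have := Nat.lt_two_pow_self (n := w₀)
      exact_mod_cast this
    have hn0 : (n : ℤ) + 1 ≤ 2 ^ n := by
      have := Nat.lt_two_pow_self (n := n)
      exact_mod_cast this
    have hb : (n : ℤ) * w₀ + 1 + w₀ ≤ 2 ^ n * 2 ^ w₀ := by
      have := mul_le_mul hn0 hw0 (by positivity) (by positivity)
      have h0 : (0 : ℤ) ≤ n := Int.natCast_nonneg n
      nlinarith
    have hb2 : (2 : ℤ) ^ n * 2 ^ w₀ < 2 ^ bexp w₀ n := by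
      rw [← pow_add]
      apply pow_lt_pow_right₀ (by norm_num)
      unfold bexp
      simp only [ENat.toNat_natCast]
      omega
    have h0n : (0 : ℤ) ≤ (n : ℤ) * w₀ := by positivity
    refine ⟨(g.1, max (min g.2 ((n : ℤ) * w₀ + 1)) (-((n : ℤ) * w₀ + 1))), ⟨hl, hw⟩, fun w h => ?_, ?_,
      fun x _ => ?_⟩
    · have := hw' w h
      linarith
    · refine lt_of_le_of_lt ?_ hb2
      refine le_trans ?_ hb
      rw [abs_le]
      constructor
      · have := le_max_right (min g.2 ((n : ℤ) * w₀ + 1)) (-((n : ℤ) * w₀ + 1))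
        have h0 : (0 : ℤ) ≤ w₀ := Int.natCast_nonneg _
        linarith
      · have h0 : (0 : ℤ) ≤ w₀ := Int.natCast_nonneg _
        apply max_le
        · have := min_le_right g.2 ((n : ℤ) * w₀ + 1)
          linarith
        · linarith
    · have h1 := abs_le.1 (hd x)
      rw [gateVal, gateVal, decide_eq_decide]
      constructor
      · intro h2
        have h3 := le_max_left (min g.2 ((n : ℤ) * w₀ + 1)) (-((n : ℤ) * w₀ + 1))
        have h4 : min g.2 ((n : ℤ) * w₀ + 1) ≤ dot g.1 x := h3.trans h2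
        rcases min_le_iff.1 h4 with h5 | h5
        · exact h5
        · linarith [h1.2]
      · intro h2
        apply max_le
        · exact (min_le_left _ _).trans h2
        · linarith [h1.1]

end Pool.Agent.Lib.ThrHard
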