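import Pool.Agent.Lib.MP_a221bc_thr.Poly
import Pool.Agent.Lib.MP_a221bc_thr.Small
import Pool.Agent.Lib.MP_a221bc_esop.Member
import Pool.Agent.Lib.PolyTime.IntBin

/-!
# Minimum intersections of halfspaces from the truth table: membership in NP
-/

set_option linter.unusedSimpArgs false

namespace Pool.Agent.Lib.ThrHard

open Turing Pool.Agent.Lib.EsopHard Pool.Agent.Lib.PolyTime

/-! ## Gates as words -/

/-- the integer of a word -/
def intOf (t : List Bool) : ℤ := if (t.head?).getD false = true then -(bval t.tail : ℤ) else (bval t.tail : ℤ)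

/-- the word of an integer -/
def encI (z : ℤ) : List Bool := decide (z < 0) :: Nat.bits z.natAbs

theorem intOf_encI (z : ℤ) : intOf (encI z) = z := by
  unfold intOf encI
  simp only [List.head?_cons, Option.getD_some, List.tail_cons, bval_bits, decide_eq_true_eq]
  split_ifs <;> omega

theorem length_encI {z : ℤ} {b : ℕ} (h : |z| < 2 ^ b) : (encI z).length ≤ b + 1 := by
  rw [encI, List.length_cons, Nat.size_eq_bits_len]
  have : Nat.size z.natAbs ≤ b := by
    rw [Nat.size_le]
    rw [Int.abs_eq_natAbs] at h
    exact_mod_cast h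
  omega

/-- first element of the first list -/
def consH (b : Bool) : List (List Bool) → List (List Bool)
  | [] => []
  | t :: r => (b :: t) :: r

/-- one step -/
def sstep (o : Option Bool) (acc : List (List Bool)) : List (List Bool) :=
  o.elim ([] :: acc) fun b => consH b acc

/-- splitting -/
def spl (l : List (Option Bool)) : List (List Bool) := l.foldr sstep []

/-- the inverse -/
def encB (L : List (List Bool)) : List (Option Bool) := L.flatMap fun t => t.map some ++ [none]

theorem foldr_some (t : List Bool) (l : List (Option Bool)) (acc : List (List Bool))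
    (h : l.foldr sstep [] = acc) : ((t.map some ++ [none]) ++ l).foldr sstep [] = t :: acc := by
  induction t with
  | nil => simp [h, sstep]
  | cons b t ih =>
    rw [List.map_cons, List.cons_append, List.cons_append, List.foldr_cons, ih]
    rfl

theorem spl_encB (L : List (List Bool)) : spl (encB L) = L := by
  induction L with
  | nil => rfl
  | cons t L ih =>
    rw [spl, encB, List.flatMap_cons]
    exact foldr_some t _ _ ih

theorem length_encB {L : List (List Bool)} {b : ℕ} (h : ∀ t ∈ L, t.length ≤ b) :
    (encB L).length ≤ L.length * (b + 1) := by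
  induction L with
  | nil => simp [encB]
  | cons t L ih =>
    have h1 := ih fun t ht => h t (List.mem_cons_of_mem _ ht)
    have h2 := h t (List.mem_cons_self ..)
    rw [encB, List.flatMap_cons, List.length_append, List.length_append, List.length_map,
      List.length_singleton, List.length_cons]
    rw [encB] at h1
    nlinarith

/-- the gate of a word -/
def gateOf (G : List (Option Bool)) : List ℤ × ℤ :=
  (((spl G).map intOf).tail, ((((spl G).map intOf).head?).getD 0))

/-- the word of a gate -/
def encG (g : List ℤ × ℤ) : List (Option Bool) := encB ((g.2 :: g.1).map encI)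

theorem gateOf_encG (g : List ℤ × ℤ) : gateOf (encG g) = g := by
  have h : ((spl (encG g)).map intOf) = g.2 :: g.1 := by
    rw [encG, spl_encB, List.map_map]
    have : intOf ∘ encI = id := funext intOf_encI
    rw [this, List.map_id]
  rw [gateOf, h]
  rfl

theorem length_encG {g : List ℤ × ℤ} {n b : ℕ} (hl : g.1.length = n) (h1 : ∀ w ∈ g.1, |w| < 2 ^ b)
    (h2 : |g.2| < 2 ^ b) : (encG g).length ≤ (n + 1) * (b + 2) := by
  have h := length_encB (L := (g.2 :: g.1).map encI) (b := b + 1) (by
    intro t ht
    obtain ⟨z, hz, rfl⟩ := List.mem_map.1 ht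
    rcases List.mem_cons.1 hz with rfl | hz
    · exact length_encI h2
    · exact length_encI (h1 z hz))
  rw [List.length_map, List.length_cons, hl] at h
  exact h

theorem length_encT_le {T : List (List (Option Bool))} {l : ℕ} (h : ∀ t ∈ T, t.length ≤ l) :
    ∃ m, m ≤ T.length * (l + 1) ∧ (encT T).length = 2 * m := by
  induction T with
  | nil => exact ⟨0, by simp, by simp [encT]⟩
  | cons t T ih =>
    obtain ⟨m, h1, h2⟩ := ih fun t ht => h t (List.mem_cons_of_mem _ ht)
    have h3 := h t (List.mem_cons_self ..)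
    refine ⟨t.length + 1 + m, ?_, ?_⟩
    · rw [List.length_cons]
      nlinarith
    · rw [encT_cons, List.length_append, length_eterm, h2]
      ring

/-! ## The verifier -/

/-- the bound on the weights -/
def wOk (W : ℕ∞) (g : List ℤ × ℤ) : Bool := g.1.all fun w => decide ((w.natAbs : ℕ∞) ≤ W)

/-- the gates of the witness -/
def gts (T : List (List (Option Bool))) : List (List ℤ × ℤ) := (T.drop 2).map gateOf

/-- the verifier, on a list of words -/
def verT (W : ℕ∞) (x : List Bool) (T : List (List (Option Bool))) : Bool :=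
  decide (natWord (bval (vbits T)) ++ table (vn x T) (gts T) = x) &&
    ((gts T).all fun g => decide (g.1.length = vn x T) && wOk W g) &&
    decide ((gts T).length ≤ bval (vbits T))

theorem verT_sound {W : ℕ∞} {x : List Bool} {T : List (List (Option Bool))} (h : verT W x T = true) :
    ∃ a ∈ ThrMCSP W, word a = x := by
  simp only [verT, wOk, Bool.and_eq_true, decide_eq_true_eq, List.all_eq_true] at h
  obtain ⟨⟨h1, h2⟩, h3⟩ := h
  exact ⟨(table (vn x T) (gts T), bval (vbits T)), ⟨vn x T, gts T, h3, h2, rfl⟩, h1⟩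

/-- every function is an AND with at most one gate for each point -/
theorem shortT (n : ℕ) (f : List Bool → Bool) : ∃ L : List (List ℤ × ℤ), L.length ≤ 2 ^ n ∧
    (∀ g ∈ L, g.1.length = n ∧ ∀ w ∈ g.1, w.natAbs ≤ 2) ∧ table n L = (points n).map f := by
  refine ⟨((points n).filter fun p => !(f p)).map (starGate fun _ => false), ?_, ?_, ?_⟩
  · rw [List.length_map, ← length_points n]
    exact List.length_filter_le _ _
  · intro g hg
    obtain ⟨p, hp, rfl⟩ := List.mem_map.1 hg
    exact ⟨by rw [length_starGate, mem_points.1 (List.mem_filter.1 hp).1], starGate_weights _ _⟩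
  · refine List.map_inj_left.2 fun x hx => ?_
    have hx' := mem_points.1 hx
    have key : andVal (((points n).filter fun p => !(f p)).map (starGate fun _ => false)) x = false ↔
        f x = false := by
      rw [andVal, List.all_eq_false]
      constructor
      · rintro ⟨g, hg, h⟩
        obtain ⟨p, hp, rfl⟩ := List.mem_map.1 hg
        obtain ⟨hp1, hp2⟩ := List.mem_filter.1 hp
        rw [Bool.not_eq_true, starGate_false _ _ _ (by rw [hx', mem_points.1 hp1])] at h
        rcases h with rfl | ⟨-, h⟩
        · simpa using hp2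
        · simp at h
      · intro h
        refine ⟨_, List.mem_map.2 ⟨x, List.mem_filter.2 ⟨hx, by simpa using h⟩, rfl⟩, ?_⟩
        rw [Bool.not_eq_true, starGate_false _ _ _ rfl]
        exact Or.inl rfl
    cases h1 : f x with
    | false => exact key.2 h1
    | true =>
      cases h2 : andVal (((points n).filter fun p => !(f p)).map (starGate fun _ => false)) x with
      | false => rw [key.1 h2] at h1; exact h1
      | true => rfl

/-- the size of the witness, as a function of the length of the input -/
def wsz (w₀ N : ℕ) : ℕ := (N + 2) * ((N + 1) * (w₀ + N + (N + 1) * (N + 1) + 2 * N + 2) + N + 1)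

theorem verT_complete {W : ℕ∞} (hW : 2 ≤ W) {x : List Bool} (h : ∃ a ∈ ThrMCSP W, word a = x) :
    ∃ w : List Bool, w.length = 2 * wsz W.toNat x.length ∧ verT W x (dec w) = true := by
  obtain ⟨⟨tt, s⟩, ⟨n, L, h1, h2, h3⟩, rfl⟩ := h
  simp only at h1 h3
  -- a short list of gates
  obtain ⟨L₁, a1, a2, a3, a4⟩ : ∃ L₁ : List (List ℤ × ℤ), L₁.length ≤ s ∧
      (∀ g ∈ L₁, g.1.length = n ∧ ∀ w ∈ g.1, (w.natAbs : ℕ∞) ≤ W) ∧ tt = table n L₁ ∧ L₁.length ≤ 2 ^ n := by
    by_cases h4 : L.length ≤ 2 ^ n
    · exact ⟨L, h1, h2, h3, h4⟩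
    · obtain ⟨L₁, h5, h6, h7⟩ := shortT n (andVal L)
      refine ⟨L₁, by omega, fun g hg => ⟨(h6 g hg).1, fun w hw => ?_⟩, by rw [h3, h7]; rfl, h5⟩
      refine le_trans ?_ hW
      exact_mod_cast (h6 g hg).2 w hw
  -- small weights
  have hs : ∀ g ∈ L₁, ∃ g' : List ℤ × ℤ, (g'.1.length = n ∧ ∀ w ∈ g'.1, (w.natAbs : ℕ∞) ≤ W) ∧
      (∀ w ∈ g'.1, |w| < 2 ^ bexp W n) ∧ |g'.2| < 2 ^ bexp W n ∧
      ∀ x : List Bool, x.length = n → gateVal g' x = gateVal g x := fun g hg => small g (a2 g hg)
  choose! F hF using hs
  set L' := L₁.map F with hL'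
  have b1 : L'.length ≤ s := by rw [hL', List.length_map]; exact a1
  have b4 : L'.length ≤ 2 ^ n := by rw [hL', List.length_map]; exact a4
  have b2 : ∀ g ∈ L', g.1.length = n ∧ ∀ w ∈ g.1, (w.natAbs : ℕ∞) ≤ W := by
    intro g hg
    obtain ⟨g₁, hg₁, rfl⟩ := List.mem_map.1 hg
    exact (hF g₁ hg₁).1
  have b3 : tt = table n L' := by
    rw [a3]
    refine List.map_inj_left.2 fun x hx => ?_
    have e : ∀ g ∈ L₁, gateVal (F g) x = gateVal g x := fun g hg =>
      (hF g hg).2.2.2 x (mem_points.1 hx)
    rw [andVal, andVal, hL', Bool.eq_iff_iff, List.all_eq_true, List.all_eq_true]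
    constructor
    · intro h g hg
      obtain ⟨g₁, hg₁, rfl⟩ := List.mem_map.1 hg
      rw [e g₁ hg₁]
      exact h g₁ hg₁
    · intro h g hg
      rw [← e g hg]
      exact h _ (List.mem_map.2 ⟨g, hg, rfl⟩)
  have b5 : ∀ g ∈ L', (encG g).length ≤ (n + 1) * (bexp W n + 2) := by
    intro g hg
    obtain ⟨g₁, hg₁, rfl⟩ := List.mem_map.1 hg
    obtain ⟨c1, c2, c3, -⟩ := hF g₁ hg₁
    exact length_encG c1.1 c2 c3
  -- sizes
  set N := (word (tt, s)).length with hN
  have hlt : tt.length = 2 ^ n := by rw [b3, table, List.length_map, length_points]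
  have hN1 : N = 2 * (Nat.bits s).length + 1 + 2 ^ n := by
    rw [hN, word_eq, List.length_append, length_natWord, hlt]
  have hn : n < 2 ^ n := Nat.lt_two_pow_self
  have hbe : bexp W n + 2 ≤ W.toNat + N + (N + 1) * (N + 1) + 2 * N + 2 := by
    have e1 := bet_le (n + 1) 0
    have e2 : 2 ^ (n + 1) = 2 ^ n * 2 := pow_succ _ _
    have e3 : (n + 1) * (n + 1) ≤ (N + 1) * (N + 1) := Nat.mul_le_mul (by omega) (by omega)
    unfold bexp
    omega
  let T : List (List (Option Bool)) := (Nat.bits s).map some :: List.replicate n none :: L'.map encG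
  have hTl : ∀ t ∈ T, t.length ≤ (N + 1) * (W.toNat + N + (N + 1) * (N + 1) + 2 * N + 2) + N := by
    intro t ht
    rcases List.mem_cons.1 ht with rfl | ht
    · rw [List.length_map]
      omega
    rcases List.mem_cons.1 ht with rfl | ht
    · rw [List.length_replicate]
      omega
    obtain ⟨g, hg, rfl⟩ := List.mem_map.1 ht
    have := (b5 g hg).trans (Nat.mul_le_mul (show n + 1 ≤ N + 1 by omega) hbe)
    omega
  obtain ⟨m, m1, m2⟩ := length_encT_le hTl
  have hmle : m ≤ wsz W.toNat N := by
    refine m1.trans ?_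
    unfold wsz
    refine Nat.mul_le_mul ?_ le_rfl
    simp only [T, List.length_cons, List.length_map]
    omega
  refine ⟨encT T ++ (List.replicate (wsz W.toNat N - m) [false, true]).flatten, ?_, ?_⟩
  · rw [List.length_append, m2]
    have e2 : ∀ m : ℕ, ((List.replicate m [false, true]).flatten).length = 2 * m := by
      intro m
      simp [mul_comm]
    rw [e2]
    omega
  · rw [dec_encT]
    have f1 : vbits T = Nat.bits s := by
      simp only [vbits, T, List.getElem?_cons_zero, Option.getD_some, List.filterMap_map]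
      exact List.filterMap_some
    have f2 : vn (word (tt, s)) T = n := by
      have : n < Nat.size N := Nat.lt_size.2 (by omega)
      simp only [vn, T, List.getElem?_cons_succ, List.getElem?_cons_zero, Option.getD_some,
        List.length_replicate]
      rw [← hN]
      omega
    have f3 : gts T = L' := by
      show (L'.map encG).map gateOf = L'
      rw [List.map_map]
      have : gateOf ∘ encG = id := funext gateOf_encG
      rw [this, List.map_id]
    simp only [verT, wOk, f1, f2, f3, bval_bits, Bool.and_eq_true, decide_eq_true_eq, List.all_eq_true]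
    refine ⟨⟨?_, b2⟩, b1⟩
    rw [word_eq, b3]

/-! ## Polynomial time -/

section

variable {α : Type*} [TEnc α]

theorem polyF_intOf {t : α → List Bool} (ht : PolyF t) : PolyF (fun x => intOf (t x)) := by
  have h1 : PolyF (fun x => ((bval (t x).tail : ℕ) : ℤ)) := ht.tail.ofBits.intOfBin
  exact PolyF.iteBool (ht.head?.getD (PolyF.const false)) h1.intNeg h1

theorem polyF_consH {s : α → Bool} {l : α → List (List Bool)} (hs : PolyF s)
    (hl : PolyF l) : PolyF (fun x => consH (s x) (l x)) := by
  refine PolyF.listCases (g := fun _ => []) (h := fun p => (s p.1 :: p.2.1) :: p.2.2) hl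
    PolyF.nil (((hs.comp PolyF.fst').cons PolyF.snd'.fst).cons PolyF.snd'.snd) ?_ ?_
  · intro x hx
    rw [hx]
    rfl
  · intro x b t hx
    rw [hx]
    rfl

theorem polyF_spl {l : α → List (Option Bool)} (hl : PolyF l) : PolyF (fun x => spl (l x)) := by
  have h1 : PolyF (fun p : α × Option Bool × List (List Bool) => sstep p.2.1 p.2.2) := by
    refine PolyF.optionElim (o := fun p : α × Option Bool × List (List Bool) => p.2.1)
      (g := fun p => [] :: p.2.2) (h := fun p b => consH b p.2.2)
      PolyF.snd'.fst (PolyF.nil.cons PolyF.snd'.snd) ?_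
    exact polyF_consH PolyF.snd' PolyF.fst'.snd.snd
  refine PolyF.foldr_add (i := fun _ => ([] : List (List Bool)))
    (f := fun _ b st => sstep b st) hl (PolyF.const _) h1 (fun _ => 5) (PBd.const 5)
    (fun x st b _ => ?_)
  rcases b with _ | b
  · simp only [sstep, Option.elim, sz_cons, sz_nil]
    omega
  · have hb := sz_bool_le b
    rcases st with _ | ⟨t, r⟩
    · simp [sstep, consH]
    · simp only [sstep, Option.elim, consH, sz_cons]
      omega

theorem polyF_gateOf {l : α → List (Option Bool)} (hl : PolyF l) : PolyF (fun x => gateOf (l x)) := by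
  have h1 : PolyF (fun x => (spl (l x)).map intOf) :=
    PolyF.map (h := fun _ t => intOf t) (polyF_spl hl) (polyF_intOf PolyF.snd')
  exact h1.tail.pair (h1.head?.getD (PolyF.const 0))

theorem dot_eq : ∀ (w : List ℤ) (x : List Bool), dot w x =
    ((w.zip x).map fun p => if p.2 = true then p.1 else 0).sum
  | [], _ => by simp [dot]
  | _ :: _, [] => by simp [dot]
  | w :: ws, b :: x => by
    rw [dot, dot_eq ws x, List.zip_cons_cons, List.map_cons, List.sum_cons]

theorem polyF_dot {w : α → List ℤ} {y : α → List Bool} (hw : PolyF w) (hy : PolyF y) :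
    PolyF (fun x => dot (w x) (y x)) := by
  have h1 : PolyF (fun x => ((w x).zip (y x)).map fun p => if p.2 = true then p.1 else 0) := by
    refine PolyF.map (h := fun _ (p : ℤ × Bool) => if p.2 = true then p.1 else 0) (PolyF.zip hw hy) ?_
    exact PolyF.iteBool PolyF.snd'.snd PolyF.snd'.fst (PolyF.const 0)
  exact h1.intSum.congr fun x => (dot_eq _ _).symm

theorem polyF_andVal {L : α → List (List ℤ × ℤ)} {y : α → List Bool} (hL : PolyF L) (hy : PolyF y) :
    PolyF (fun x => andVal (L x) (y x)) := by
  refine PolyF.all (p := fun x g => gateVal g (y x)) hL ?_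
  exact PolyF.intLe PolyF.snd'.snd (polyF_dot PolyF.snd'.fst (hy.comp PolyF.fst'))

theorem polyF_tableT {n : α → ℕ} {L : α → List (List ℤ × ℤ)} (hn : PolyF n)
    (hb : PBd fun x => 2 ^ n x) (hL : PolyF L) : PolyF (fun x => table (n x) (L x)) :=
  PolyF.map (h := fun x y => andVal (L x) y) (polyF_points hn hb)
    (polyF_andVal (hL.comp PolyF.fst') PolyF.snd')

theorem polyF_wOk (W : ℕ∞) {g : α → List ℤ × ℤ} (hg : PolyF g) : PolyF (fun x => wOk W (g x)) := by
  rcases eq_or_ne W ⊤ with rfl | hW
  · refine (PolyF.const true).congr fun x => ?_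
    symm
    rw [wOk, List.all_eq_true]
    intro w _
    exact decide_eq_true le_top
  · obtain ⟨w₀, rfl⟩ := ENat.ne_top_iff_exists.1 hW
    refine (PolyF.all (p := fun _ w => decide (|w| ≤ (w₀ : ℤ))) hg.fst
      (PolyF.snd'.intAbs.intLe (PolyF.const _))).congr fun x => ?_
    rw [wOk]
    congr 1
    funext w
    rw [decide_eq_decide, Int.abs_eq_natAbs]
    constructor
    · intro h
      have h' : w.natAbs ≤ w₀ := by exact_mod_cast h
      exact_mod_cast h'
    · intro h
      have h' : w.natAbs ≤ w₀ := by exact_mod_cast h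
      exact_mod_cast h'

theorem polyF_verT (W : ℕ∞) {x : α → List Bool} {T : α → List (List (Option Bool))} (hx : PolyF x)
    (hT : PolyF T) : PolyF (fun a => verT W (x a) (T a)) := by
  have hs : PolyF (α := α) (β := NBin) (fun a => bval (vbits (T a))) := ((polyF_vbits hT).ofBits).ofBin
  have hd : PolyF (fun a => gts (T a)) :=
    PolyF.map (h := fun _ G => gateOf G) (PolyF.drop (PolyF.const 2) hT) (polyF_gateOf PolyF.snd')
  have hn := polyF_vn hx hT
  have h1 : PolyF (fun a => decide (natWord (bval (vbits (T a))) ++ table (vn (x a) (T a)) (gts (T a)) =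
      x a)) :=
    PolyF.eq ((polyF_natWord' hs).append (polyF_tableT hn (pbd_vn hx) hd)) hx
  have h2 : PolyF (fun a => (gts (T a)).all fun g => decide (g.1.length = vn (x a) (T a)) && wOk W g) :=
    PolyF.all (p := fun a g => decide (g.1.length = vn (x a) (T a)) && wOk W g) hd
      ((PolyF.natEq PolyF.snd'.fst.length (hn.comp PolyF.fst')).and (polyF_wOk W PolyF.snd'))
  have h3 : PolyF (fun a => decide ((gts (T a)).length ≤ bval (vbits (T a)))) :=
    PolyF.nbLe hd.length.nbOfNat hs
  exact (h1.and h2).and h3

end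

/-- **Minimum intersections of halfspaces from the truth table: in NP.** -/
theorem thr_np {W : ℕ∞} (hW : 2 ≤ W) : InNP (ThrMCSPLanguage W) := by
  refine ⟨2 * ((Polynomial.X + 2) * ((Polynomial.X + 1) * (Polynomial.C W.toNat + Polynomial.X +
    (Polynomial.X + 1) * (Polynomial.X + 1) + 2 * Polynomial.X + 2) + Polynomial.X + 1)),
    fun p => verT W p.1 (dec p.2), ?_, fun x => ⟨fun h => ?_, ?_⟩⟩
  · have h : PolyF (fun y : List (Option Bool) => verT W (unX y) (dec (unW y))) :=
      polyF_verT W polyF_unX (polyF_dec polyF_unW)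
    exact h.tm2_bool fun p => by rw [unX_pair, unW_pair]
  · obtain ⟨w, h1, h2⟩ := verT_complete hW h
    refine ⟨w, ?_, h2⟩
    rw [h1, wsz]
    simp
  · rintro ⟨w, -, h⟩
    exact verT_sound h

/-- **Minimum intersections of halfspaces from the truth table: NP-complete.** -/
theorem thr_complete {W : ℕ∞} (hW : 2 ≤ W) : NPComplete (ThrMCSPLanguage W) := ⟨thr_np hW, thr_hard hW⟩

end Pool.Agent.Lib.ThrHard
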