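import Pool.Agent.Lib.MP_a221bc_thr.Red
import Pool.Agent.Lib.MP_a221bc_esop.Poly

/-!
# The reduction is computable in polynomial time
-/

set_option linter.unusedSimpArgs false

namespace Pool.Agent.Lib.ThrHard

open Turing Pool.Agent.Lib.EsopHard Pool.Agent.Lib.PolyTime Pool.Agent.Lib.CookLevin

variable {α : Type*} [TEnc α]

theorem sx_eq : ∀ t < 12, sx t = (([[false, false, false, false, false], [true, false, false, false, false],
    [true, true, false, false, false], [true, true, true, false, false], [false, true, true, false, false],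
    [false, true, true, false, false], [false, true, true, false, false], [true, true, true, false, false],
    [true, true, false, false, false], [true, false, false, false, false]] : List (List Bool))[t]?).getD
    [false, false, false, false, false] := by decide

theorem kx_eq : ∀ t < 6, kx t = (([[true, true, false, true, true], [true, false, false, true, true],
    [true, false, false, true, true], [true, false, false, true, true]] : List (List Bool))[t]?).getD
    [true, true, false, true, true] := by decide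

theorem polyF_sx {n : α → ℕ} (hn : PolyF n) : PolyF (fun x => sx (n x % 12)) :=
  ((PolyF.getElem? (hn.natMod (PolyF.const 12)) (PolyF.const _)).getD (PolyF.const _)).congr fun x =>
    (sx_eq _ (Nat.mod_lt _ (by norm_num))).symm

theorem polyF_kx {n : α → ℕ} (hn : PolyF n) : PolyF (fun x => kx (n x % 6)) :=
  ((PolyF.getElem? (hn.natMod (PolyF.const 6)) (PolyF.const _)).getD (PolyF.const _)).congr fun x =>
    (kx_eq _ (Nat.mod_lt _ (by norm_num))).symm

theorem polyF_sb {n : α → ℕ} (hn : PolyF n) : PolyF (fun x => sb (n x)) := by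
  unfold sb
  exact PolyF.ite (hn.natLe (PolyF.const 4)) (PolyF.const 0) (PolyF.ite (hn.natEq (PolyF.const 5))
    (PolyF.const 1) (PolyF.ite (hn.natLe (PolyF.const 10)) (PolyF.const 2) (PolyF.const 3)))

theorem polyF_ka {n : α → ℕ} (hn : PolyF n) : PolyF (fun x => ka (n x)) := by
  unfold ka
  exact PolyF.ite (hn.natLe (PolyF.const 1)) (PolyF.const 0) (PolyF.ite (hn.natEq (PolyF.const 2))
    (PolyF.const 1) (PolyF.ite (hn.natLe (PolyF.const 4)) (PolyF.const 2) (PolyF.const 3)))

theorem polyF_wr {k b : α → ℕ} (hk : PolyF k) (hb : PolyF b) : PolyF (fun x => wr (k x + 1) (b x)) :=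
  (polyF_gray hk (hb.succ.natDiv (PolyF.const 2))).append (polyF_gray hk (hb.natDiv (PolyF.const 2)))

theorem polyF_cd {i j a b : α → ℕ} {l : α → List Bool} (hi : PolyF i) (hj : PolyF j) (ha : PolyF a)
    (hb : PolyF b) (hl : PolyF l) : PolyF (fun x => cd (i x) (j x) (a x) (b x) (l x)) :=
  (polyF_wr hi ha).append ((polyF_wr hj hb).append hl)

theorem polyF_zc {i j M v : α → ℕ} (hi : PolyF i) (hj : PolyF j) (hM : PolyF M) (hv : PolyF v) :
    PolyF (fun x => zc (i x) (j x) (M x) (v x)) := by
  refine PolyF.map (h := fun x t => cd (i x) (j x) (4 * v x) (4 * (t / 12) + sb (t % 12)) (sx (t % 12)))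
    ((PolyF.const 12).natMul hM).range ?_
  have ht : PolyF (fun p : α × ℕ => p.2) := PolyF.snd'
  exact polyF_cd (hi.comp PolyF.fst') (hj.comp PolyF.fst') ((PolyF.const 4).natMul (hv.comp PolyF.fst'))
    (((PolyF.const 4).natMul (ht.natDiv (PolyF.const 12))).natAdd (polyF_sb (ht.natMod (PolyF.const 12))))
    (polyF_sx ht)

theorem polyF_zk {i j V C : α → ℕ} (hi : PolyF i) (hj : PolyF j) (hV : PolyF V) (hC : PolyF C) :
    PolyF (fun x => zk (i x) (j x) (V x) (C x)) := by
  refine PolyF.map (h := fun x s => cd (i x) (j x) (4 * (s / 6) + ka (s % 6)) (4 * C x) (kx (s % 6)))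
    ((PolyF.const 6).natMul hV).succ.range ?_
  have ht : PolyF (fun p : α × ℕ => p.2) := PolyF.snd'
  exact polyF_cd (hi.comp PolyF.fst') (hj.comp PolyF.fst')
    (((PolyF.const 4).natMul (ht.natDiv (PolyF.const 6))).natAdd (polyF_ka (ht.natMod (PolyF.const 6))))
    ((PolyF.const 4).natMul (hC.comp PolyF.fst')) (polyF_kx ht)

theorem polyF_zb {i j v C : α → ℕ} {s : α → Bool} (hi : PolyF i) (hj : PolyF j) (hv : PolyF v)
    (hC : PolyF C) (hs : PolyF s) : PolyF (fun x => zb (i x) (j x) (v x) (C x) (s x)) := by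
  have h1 : PolyF (fun x => bx (s x) 1) := PolyF.iteBool hs (PolyF.const _) (PolyF.const _)
  have h2 : PolyF (fun x => bx (s x) 2) := PolyF.const _
  have h3 : PolyF (fun x => bx (s x) 3) := PolyF.const _
  have hv4 := (PolyF.const 4).natMul hv
  have hC4 := (PolyF.const 4).natMul hC
  exact (polyF_cd hi hj hv4 hC4 h1).cons ((polyF_cd hi hj hv4 hC4 h2).cons
    ((polyF_cd hi hj hv4 hC4 h3).cons PolyF.nil))

theorem polyF_inc {φ : α → CNF} {v C : α → ℕ} (hφ : PolyF φ) (hv : PolyF v) (hC : PolyF C) :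
    PolyF (fun x => inc (φ x) (v x) (C x)) :=
  (PolyF.contains (polyF_cl hφ hC) (hv.pair (PolyF.const true))).or
    (PolyF.contains (polyF_cl hφ hC) (hv.pair (PolyF.const false)))

theorem polyF_sgn {φ : α → CNF} {v C : α → ℕ} (hφ : PolyF φ) (hv : PolyF v) (hC : PolyF C) :
    PolyF (fun x => sgn (φ x) (v x) (C x)) :=
  PolyF.contains (polyF_cl hφ hC) (hv.pair (PolyF.const true))

theorem polyF_M {φ : α → CNF} (hφ : PolyF φ) : PolyF (fun x => 2 ^ kj (φ x)) :=
  polyF_pow (polyF_kj hφ) (pbd_kj hφ)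

theorem polyF_zeros {φ : α → CNF} (hφ : PolyF φ) : PolyF (fun x => zeros (φ x)) := by
  have h0 : PolyF (fun p : α × ℕ => φ p.1) := hφ.comp PolyF.fst'
  have h1 : PolyF (fun p : (α × ℕ) × ℕ => φ p.1.1) := h0.comp PolyF.fst'
  have nl : ∀ {β : Type _} [TEnc β], PolyF (fun _ : β => ([] : List (List Bool))) := PolyF.nil
  refine PolyF.append ?_ ?_
  · refine PolyF.flatMap (h := fun x v => zc (ki (φ x)) (kj (φ x)) (2 ^ kj (φ x)) v) hφ.fst.range ?_
    exact polyF_zc (polyF_ki h0) (polyF_kj h0) (polyF_M h0) PolyF.snd'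
  · refine PolyF.flatMap (h := fun x C => if actN (φ x) C = true then
      zk (ki (φ x)) (kj (φ x)) (φ x).1 C ++ (List.range (φ x).1).flatMap fun v =>
        if inc (φ x) v C = true then zb (ki (φ x)) (kj (φ x)) v C (sgn (φ x) v C) else []
      else []) (polyF_M hφ).range ?_
    refine PolyF.iteBool (polyF_actN h0 PolyF.snd') (PolyF.append
      (polyF_zk (polyF_ki h0) (polyF_kj h0) h0.fst PolyF.snd') ?_) nl
    refine PolyF.flatMap (h := fun (p : α × ℕ) v => if inc (φ p.1) v p.2 = true then
      zb (ki (φ p.1)) (kj (φ p.1)) v p.2 (sgn (φ p.1) v p.2) else []) h0.fst.range ?_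
    have hC : PolyF (fun p : (α × ℕ) × ℕ => p.1.2) := PolyF.fst'.snd
    have hv : PolyF (fun p : (α × ℕ) × ℕ => p.2) := PolyF.snd'
    exact PolyF.iteBool (polyF_inc h1 hv hC)
      (polyF_zb (polyF_ki h1) (polyF_kj h1) hv hC (polyF_sgn h1 hv hC)) nl

theorem polyF_tabT {φ : α → CNF} (hφ : PolyF φ) : PolyF (fun x => tabT (φ x)) := by
  have h1 : PolyF (fun x => nn (φ x)) :=
    (((PolyF.const 2).natMul (polyF_ki hφ)).natAdd ((PolyF.const 2).natMul (polyF_kj hφ))).natAdd
      (PolyF.const 9)
  have h2 : PBd (fun x => 2 ^ nn (φ x)) :=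
    (((((pbd_ki hφ).pow 2).mul ((pbd_kj hφ).pow 2)).mul (PBd.const (2 ^ 9))).of_le fun x => by
      rw [nn, pow_add, pow_add, mul_comm 2, mul_comm 2, pow_mul, pow_mul])
  refine PolyF.map (h := fun x y => !((zeros (φ x)).contains y)) (polyF_points h1 h2) ?_
  exact (PolyF.contains (polyF_zeros (hφ.comp PolyF.fst')) PolyF.snd').not

theorem polyF_sizeT {φ : α → CNF} (hφ : PolyF φ) : PolyF (fun x => sizeT (φ x)) := by
  have h0 : PolyF (fun p : α × ℕ => φ p.1) := hφ.comp PolyF.fst'
  have h1 : PolyF (fun p : (α × ℕ) × ℕ => φ p.1.1) := h0.comp PolyF.fst'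
  have a1 : PolyF (fun x => (φ x).1 * (4 * 2 ^ kj (φ x))) :=
    hφ.fst.natMul ((PolyF.const 4).natMul (polyF_M hφ))
  have a2 : PolyF (fun x => (List.range (2 ^ kj (φ x))).countP (actN (φ x)) * (2 * (φ x).1)) :=
    (PolyF.countP (p := fun x C => actN (φ x) C) (polyF_M hφ).range
      (polyF_actN h0 PolyF.snd')).natMul ((PolyF.const 2).natMul hφ.fst)
  have a3 : PolyF (fun x => ((List.range (2 ^ kj (φ x))).map fun C =>
      if actN (φ x) C = true then (List.range (φ x).1).countP (fun v => inc (φ x) v C) else 0).sum) := by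
    refine PolyF.natSum (PolyF.map (h := fun x C => if actN (φ x) C = true then
      (List.range (φ x).1).countP (fun v => inc (φ x) v C) else 0) (polyF_M hφ).range ?_)
    refine PolyF.iteBool (polyF_actN h0 PolyF.snd') ?_ (PolyF.const 0)
    exact PolyF.countP (p := fun (p : α × ℕ) v => inc (φ p.1) v p.2) h0.fst.range
      (polyF_inc h1 PolyF.snd' PolyF.fst'.snd)
  exact a1.natAdd (a2.natAdd a3)

theorem polyF_redT {φ : α → CNF} (hφ : PolyF φ) : PolyF (fun x => word (tabT (φ x), sizeT (φ x))) := by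
  have h : PolyF (fun x => natWord (sizeT (φ x)) ++ tabT (φ x)) :=
    (polyF_natWord (polyF_sizeT hφ)).append (polyF_tabT hφ)
  exact h.congr fun x => (word_eq _ _).symm

/-- **Minimum intersections of halfspaces from the truth table: NP-hard.** -/
theorem thr_hard {W : ℕ∞} (hW : 2 ≤ W) (L' : Set (List Bool)) (hL : InNP L') :
    KarpReducible L' (ThrMCSPLanguage W) := by
  obtain ⟨p, V, hV, hx⟩ := hL
  have hS : SharpP fun x => Nat.card {w : List Bool // w.length = p.eval x.length ∧
      V (x, w) = true} := ⟨p, V, hV, fun _ => rfl⟩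
  obtain ⟨g, hg, hwf, hc⟩ := cook_levin hS
  refine ⟨fun x => word (tabT (g x), sizeT (g x)), ?_, fun x => ?_⟩
  · exact (polyF_redT hg).tm2 fun _ => rfl
  · have h1 : word (tabT (g x), sizeT (g x)) ∈ ThrMCSPLanguage W ↔
        (tabT (g x), sizeT (g x)) ∈ ThrMCSP W := by
      constructor
      · rintro ⟨q, hq, e⟩
        rwa [← word_injective e]
      · intro h
        exact ⟨_, h, rfl⟩
    rw [h1, redT_iff hW (g x) (hwf x), ← count_pos (g x) (hwf x), ← hc x, hx]
    have : Finite {w : List Bool // w.length = p.eval x.length ∧ V (x, w) = true} :=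
      Set.Finite.to_subtype ((List.finite_length_eq Bool (p.eval x.length)).subset
        fun w hw => hw.1)
    rw [Finite.card_pos_iff]
    exact nonempty_subtype.symm

end Pool.Agent.Lib.ThrHard
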