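import Pool.Agent.Lib.MP_a221bc_thr.Upper
import Pool.Agent.Lib.MP_a221bc_esop.Red

/-!
# The reduction
-/

set_option linter.unusedSimpArgs false

namespace Pool.Agent.Lib.ThrHard

open Pool.Agent.Lib.EsopHard Pool.Agent.Lib.CookLevin

/-- incidence of a variable and a clause -/
def inc (φ : CNF) (v C : ℕ) : Bool := (cl φ C).contains (v, true) || (cl φ C).contains (v, false)

/-- sign of a variable in a clause -/
def sgn (φ : CNF) (v C : ℕ) : Bool := (cl φ C).contains (v, true)

/-- the data of a formula -/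
def dat (φ : CNF) : Dat where
  V := φ.1
  M := 2 ^ kj φ
  act := actN φ
  inc := inc φ
  sg := sgn φ

theorem fit (φ : CNF) : (dat φ).Fit (ki φ) (kj φ) := by
  refine ⟨?_, rfl⟩
  have hV : φ.1 < 2 ^ ki φ := Nat.lt_size_self _
  have hV' : 2 ^ (ki φ + 1) = 2 ^ ki φ * 2 := pow_succ _ _
  show 2 * φ.1 < _
  omega

theorem sat_dat (φ : CNF) (hφ : φ.Wf) : Sat φ ↔ ∃ x : ℕ → Bool,
    ∀ C < (dat φ).M, (dat φ).act C = true → ∃ v < (dat φ).V, (dat φ).inc v C = true ∧ x v = (dat φ).sg v C := by
  have hW : φ.2.length < 2 ^ kj φ := Nat.lt_size_self _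
  have hcl : ∀ C < φ.2.length, cl φ C ∈ φ.2 := by
    intro C hC
    simp [cl, List.getElem?_eq_getElem hC]
  constructor
  · rintro ⟨a, ha⟩
    refine ⟨a, fun C _ hC => ?_⟩
    replace hC : actN φ C = true := hC
    simp only [actN, Bool.and_eq_true, decide_eq_true_eq, Bool.not_eq_true'] at hC
    obtain ⟨h1, h2⟩ := hC
    obtain ⟨⟨u, b⟩, h3, h4⟩ := ha _ (hcl _ h1)
    have h5 : u < φ.1 := hφ _ (hcl _ h1) _ h3
    refine ⟨u, h5, ?_, ?_⟩
    · show inc φ u C = true
      simp only [inc, Bool.or_eq_true, List.contains_iff_mem]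
      cases b
      · exact Or.inr h3
      · exact Or.inl h3
    · show a u = sgn φ u C
      unfold sgn
      have h7 : ¬ ∃ l ∈ cl φ C, (l.1, !l.2) ∈ cl φ C := by
        rw [← taut_iff, h2]
        decide
      have h8 : a u = b := h4
      rw [h8]
      cases b
      · symm
        rw [Bool.eq_false_iff]
        intro h9
        exact h7 ⟨(u, false), h3, by simpa using h9⟩
      · symm
        simpa using h3
  · rintro ⟨x, hx⟩
    refine ⟨x, fun c hc => ?_⟩
    obtain ⟨C, hC, rfl⟩ := List.mem_iff_getElem.1 hc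
    have h0 : cl φ C = φ.2[C] := by simp [cl, List.getElem?_eq_getElem hC]
    rw [← h0]
    by_cases h1 : taut (cl φ C) = true
    · obtain ⟨⟨u, b⟩, h2, h3⟩ := (taut_iff _).1 h1
      by_cases h4 : x u = b
      · exact ⟨(u, b), h2, h4⟩
      · refine ⟨(u, !b), h3, ?_⟩
        show x u = !b
        exact Bool.eq_not_of_ne h4
    · obtain ⟨v, -, h3, h4⟩ := hx C (show C < 2 ^ kj φ by omega) (by
        show actN φ C = true
        simp only [actN, Bool.and_eq_true, decide_eq_true_eq, Bool.not_eq_true']
        exact ⟨hC, by simpa using h1⟩)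
      replace h3 : inc φ v C = true := h3
      replace h4 : x v = sgn φ v C := h4
      simp only [inc, Bool.or_eq_true, List.contains_iff_mem] at h3
      by_cases h9 : (v, true) ∈ cl φ C
      · refine ⟨_, h9, ?_⟩
        show x v = true
        rw [h4]
        simpa [sgn] using h9
      · rcases h3 with h6 | h6
        · exact absurd h6 h9
        refine ⟨_, h6, ?_⟩
        show x v = false
        rw [h4]
        simpa [sgn] using h9

/-! ## The zeros, on numbers -/

/-- the zeros on the line of the variable `v` -/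
def zc (i j M v : ℕ) : List (List Bool) :=
  (List.range (12 * M)).map fun t => cd i j (4 * v) (4 * (t / 12) + sb (t % 12)) (sx (t % 12))

/-- the zeros on the line of the clause `C` -/
def zk (i j V C : ℕ) : List (List Bool) :=
  (List.range (6 * V + 1)).map fun s => cd i j (4 * (s / 6) + ka (s % 6)) (4 * C) (kx (s % 6))

/-- the zeros on a bridge -/
def zb (i j v C : ℕ) (s : Bool) : List (List Bool) :=
  [cd i j (4 * v) (4 * C) (bx s 1), cd i j (4 * v) (4 * C) (bx s 2), cd i j (4 * v) (4 * C) (bx s 3)]

/-- the zeros -/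
def zeros (φ : CNF) : List (List Bool) :=
  ((List.range φ.1).flatMap fun v => zc (ki φ) (kj φ) (2 ^ kj φ) v) ++
    (List.range (2 ^ kj φ)).flatMap fun C => if actN φ C = true then
      zk (ki φ) (kj φ) φ.1 C ++ (List.range φ.1).flatMap fun v =>
        if inc φ v C = true then zb (ki φ) (kj φ) v C (sgn φ v C) else []
      else []

theorem mem_zeros (φ : CNF) (x : List Bool) : x ∈ zeros φ ↔ (dat φ).Z (ki φ) (kj φ) x := by
  unfold zeros
  rw [List.mem_append]
  constructor
  · rintro (h | h)
    · obtain ⟨v, hv, h⟩ := List.mem_flatMap.1 h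
      rw [List.mem_range] at hv
      obtain ⟨t, ht, rfl⟩ := List.mem_map.1 h
      rw [List.mem_range] at ht
      exact ⟨.cyc v t, ⟨hv, ht⟩, rfl⟩
    · obtain ⟨C, hC, h⟩ := List.mem_flatMap.1 h
      rw [List.mem_range] at hC
      split_ifs at h with ha
      · rcases List.mem_append.1 h with h | h
        · obtain ⟨s, hs, rfl⟩ := List.mem_map.1 h
          rw [List.mem_range] at hs
          exact ⟨.cls C s, ⟨hC, ha, by show s ≤ 6 * φ.1; omega⟩, rfl⟩
        · obtain ⟨v, hv, h⟩ := List.mem_flatMap.1 h
          rw [List.mem_range] at hv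
          split_ifs at h with hi
          · simp only [zb, List.mem_cons, List.not_mem_nil, or_false] at h
            rcases h with rfl | rfl | rfl
            · exact ⟨.br v C 1, ⟨hv, hC, ha, hi, by norm_num, by norm_num⟩, rfl⟩
            · exact ⟨.br v C 2, ⟨hv, hC, ha, hi, by norm_num, by norm_num⟩, rfl⟩
            · exact ⟨.br v C 3, ⟨hv, hC, ha, hi, by norm_num, by norm_num⟩, rfl⟩
          · simp at h
      · simp at h
  · rintro ⟨z, hz, rfl⟩
    rcases z with ⟨v, t⟩ | ⟨C, s⟩ | ⟨v, C, q⟩
    · left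
      exact List.mem_flatMap.2 ⟨v, List.mem_range.2 hz.1, List.mem_map.2 ⟨t, List.mem_range.2 hz.2, rfl⟩⟩
    · right
      obtain ⟨hC, ha, hs⟩ := hz
      refine List.mem_flatMap.2 ⟨C, List.mem_range.2 hC, ?_⟩
      replace ha : actN φ C = true := ha
      rw [if_pos ha]
      refine List.mem_append_left _ (List.mem_map.2 ⟨s, List.mem_range.2 ?_, rfl⟩)
      replace hs : s ≤ 6 * φ.1 := hs
      omega
    · right
      obtain ⟨hv, hC, ha, hi, h1, h3⟩ := hz
      refine List.mem_flatMap.2 ⟨C, List.mem_range.2 hC, ?_⟩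
      replace ha : actN φ C = true := ha
      rw [if_pos ha]
      refine List.mem_append_right _ (List.mem_flatMap.2 ⟨v, List.mem_range.2 hv, ?_⟩)
      replace hi : inc φ v C = true := hi
      rw [if_pos hi]
      rcases (show q = 1 ∨ q = 2 ∨ q = 3 by omega) with rfl | rfl | rfl
      · exact List.mem_cons_self ..
      · exact List.mem_cons_of_mem _ (List.mem_cons_self ..)
      · exact List.mem_cons_of_mem _ (List.mem_cons_of_mem _ (List.mem_cons_self ..))

/-- the number of variables of the function -/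
def nn (φ : CNF) : ℕ := 2 * ki φ + 2 * kj φ + 9

/-- the truth table -/
def tabT (φ : CNF) : List Bool := (points (nn φ)).map fun x => !((zeros φ).contains x)

/-- the size -/
def sizeT (φ : CNF) : ℕ := φ.1 * (4 * 2 ^ kj φ) +
  ((List.range (2 ^ kj φ)).countP (actN φ) * (2 * φ.1) +
    ((List.range (2 ^ kj φ)).map fun C =>
      if actN φ C = true then (List.range φ.1).countP (fun v => inc φ v C) else 0).sum)

theorem card_filter_range (n : ℕ) (p : ℕ → Bool) :
    ((Finset.range n).filter fun k => p k = true).card = (List.range n).countP p := by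
  induction n with
  | zero => rfl
  | succ n ih =>
    rw [Finset.range_add_one, Finset.filter_insert, List.range_succ, List.countP_append, ← ih,
      List.countP_singleton]
    split_ifs with h
    · rw [Finset.card_insert_of_notMem (by simp)]
    · rfl

theorem sum_range_list (n : ℕ) (g : ℕ → ℕ) : ∑ k ∈ Finset.range n, g k = ((List.range n).map g).sum := by
  induction n with
  | zero => rfl
  | succ n ih =>
    rw [Finset.sum_range_succ, List.range_succ, List.map_append, List.sum_append, ih]
    simp

theorem sizeT_eq (φ : CNF) : sizeT φ = (dat φ).K := by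
  have h1 : (dat φ).acts.card = (List.range (2 ^ kj φ)).countP (actN φ) := card_filter_range _ _
  have h2 : (dat φ).cells.card = ((List.range (2 ^ kj φ)).map fun C =>
      if actN φ C = true then (List.range φ.1).countP (fun v => inc φ v C) else 0).sum := by
    rw [← sum_range_list, Dat.cells, Finset.card_filter, Finset.sum_product_right]
    refine Finset.sum_congr rfl fun C _ => ?_
    by_cases h : actN φ C = true
    · rw [if_pos h, ← card_filter_range, Finset.card_filter]
      refine Finset.sum_congr rfl fun v _ => ?_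
      have e : ((dat φ).act C = true ∧ (dat φ).inc v C = true) ↔ inc φ v C = true := by
        constructor
        · exact fun h => h.2
        · exact fun h' => ⟨h, h'⟩
      simp only [e]
    · rw [if_neg h]
      refine Finset.sum_eq_zero fun v _ => ?_
      rw [if_neg]
      exact fun h' => h h'.1
  unfold sizeT Dat.K
  rw [h1, h2]
  rfl

theorem mem_thr {W : ℕ∞} {n s : ℕ} (f : List Bool → Bool) : ((points n).map f, s) ∈ ThrMCSP W ↔
    ∃ L : List (List ℤ × ℤ), L.length ≤ s ∧ (∀ g ∈ L, g.1.length = n ∧ ∀ w ∈ g.1, (w.natAbs : ℕ∞) ≤ W) ∧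
      ∀ x : List Bool, x.length = n → andVal L x = f x := by
  constructor
  · rintro ⟨m, L, h1, h2, h3⟩
    have h4 : n = m := by
      have := congrArg List.length h3
      simp only [table, List.length_map, length_points] at this
      exact Nat.pow_right_injective le_rfl this
    subst h4
    refine ⟨L, h1, h2, fun x hx => ?_⟩
    exact (List.map_inj_left.1 h3 x (mem_points.2 hx)).symm
  · rintro ⟨L, h1, h2, h3⟩
    refine ⟨n, L, h1, h2, ?_⟩
    exact List.map_inj_left.2 fun x hx => (h3 x (mem_points.1 hx)).symm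

/-- **The reduction.** -/
theorem redT_iff {W : ℕ∞} (hW : 2 ≤ W) (φ : CNF) (hφ : φ.Wf) :
    (tabT φ, sizeT φ) ∈ ThrMCSP W ↔ Sat φ := by
  have hf : ∀ u : List Bool, u.length = 2 * ki φ + 2 * kj φ + 9 →
      ((!((zeros φ).contains u)) = false ↔ (dat φ).Z (ki φ) (kj φ) u) := by
    intro u _
    rw [← mem_zeros]
    simp
  rw [tabT, mem_thr, sat_dat φ hφ, sizeT_eq]
  constructor
  · rintro ⟨L, h1, h2, h3⟩
    exact (fit φ).assign _ hf L h1 (fun g hg => (h2 g hg).1) h3
  · rintro ⟨x, hx⟩
    obtain ⟨L, h1, h2, h3⟩ := (fit φ).gates hx _ hf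
    refine ⟨L, h1, fun g hg => ⟨(h2 g hg).1, fun w hw => ?_⟩, h3⟩
    refine le_trans ?_ hW
    exact_mod_cast (h2 g hg).2 w hw

end Pool.Agent.Lib.ThrHard
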