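import Pool.Agent.Lib.MP_a221bc_thr.Unate

/-!
# Stars are halfspaces
-/

namespace Pool.Agent.Lib.ThrHard

open Pool.Agent.Lib.EsopHard

/-- the cost of each direction: `1` if the neighbour has the property, else `2` -/
def dirs : (List Bool → Bool) → List Bool → List ℤ
  | _, [] => []
  | P, b :: c => (if P ((!b) :: c) = true then 1 else 2) :: dirs (fun l => P (b :: l)) c

/-- the weighted distance -/
def wdist : List ℤ → List Bool → List Bool → ℤ
  | d :: ds, b :: c, a :: x => (if a = b then 0 else d) + wdist ds c x
  | _, _, _ => 0

theorem length_dirs : ∀ (P : List Bool → Bool) (c : List Bool), (dirs P c).length = c.length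
  | _, [] => rfl
  | P, b :: c => by rw [dirs, List.length_cons, length_dirs _ c, List.length_cons]

theorem wdist_nonneg : ∀ (P : List Bool → Bool) (c x : List Bool), 0 ≤ wdist (dirs P c) c x
  | _, [], _ => by simp [dirs, wdist]
  | P, b :: c, [] => by simp [dirs, wdist]
  | P, b :: c, a :: x => by
    have := wdist_nonneg (fun l => P (b :: l)) c x
    rw [dirs, wdist]
    split_ifs <;> omega

theorem wdist_zero : ∀ (P : List Bool → Bool) (c x : List Bool), x.length = c.length →
    (wdist (dirs P c) c x ≤ 0 ↔ x = c)
  | _, [], [], _ => by simp [dirs, wdist]
  | _, [], _ :: _, h => by simp at h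
  | P, b :: c, [], h => by simp at h
  | P, b :: c, a :: x, h => by
    have ih := wdist_zero (fun l => P (b :: l)) c x (by simpa using h)
    have h0 := wdist_nonneg (fun l => P (b :: l)) c x
    rw [dirs, wdist, List.cons.injEq, ← ih]
    by_cases hab : a = b
    · simp [hab]
    · rw [if_neg hab]
      constructor
      · intro h1
        split_ifs at h1 <;> omega
      · intro h1
        exact absurd h1.1 hab

theorem wdist_one : ∀ (P : List Bool → Bool) (c x : List Bool), x.length = c.length →
    (wdist (dirs P c) c x ≤ 1 ↔ x = c ∨ (Adj c x ∧ P x = true))
  | _, [], [], _ => by simp [dirs, wdist]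
  | _, [], _ :: _, h => by simp at h
  | P, b :: c, [], h => by simp at h
  | P, b :: c, a :: x, h => by
    have hl : x.length = c.length := by simpa using h
    rw [dirs, wdist]
    by_cases hab : a = b
    · subst hab
      rw [if_pos rfl, zero_add, wdist_one _ c x hl, List.cons.injEq]
      constructor
      · rintro (h1 | ⟨h1, h2⟩)
        · exact Or.inl ⟨rfl, h1⟩
        · exact Or.inr ⟨Adj.tail _ h1, h2⟩
      · rintro (h1 | ⟨h1, h2⟩)
        · exact Or.inl h1.2
        · right
          refine ⟨?_, h2⟩
          have h3 : ∀ (u v : List Bool), Adj u v → ∀ b c x, u = b :: c → v = b :: x → Adj c x := by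
            intro u v huv
            cases huv with
            | head b' l =>
              intro b c x e1 e2
              have e3 := (List.cons.inj e1).1
              have e4 := (List.cons.inj e2).1
              rw [← e3] at e4
              cases b' <;> simp at e4
            | tail b' hh =>
              intro b c x e1 e2
              rw [← (List.cons.inj e1).2, ← (List.cons.inj e2).2]
              exact hh
          exact h3 _ _ h1 _ _ _ rfl rfl
    · have hab' : a = !b := by
        cases a <;> cases b <;> simp_all
      have h0 := wdist_nonneg (fun l => P (b :: l)) c x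
      have hz := wdist_zero (fun l => P (b :: l)) c x hl
      rw [if_neg hab]
      constructor
      · intro h1
        have h2 : P ((!b) :: c) = true := by
          by_contra h2
          rw [if_neg h2] at h1
          omega
        rw [if_pos h2] at h1
        have h3 : x = c := hz.1 (by omega)
        right
        rw [h3, hab']
        exact ⟨Adj.head b c, h2⟩
      · rintro (h1 | ⟨h1, h2⟩)
        · exact absurd (List.cons.inj h1).1 hab
        · have h3 : ∀ (u v : List Bool), Adj u v → ∀ b c a x, u = b :: c → v = a :: x → a ≠ b → x = c := by
            intro u v huv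
            cases huv with
            | head b' l =>
              intro b c a x e1 e2 _
              rw [← (List.cons.inj e1).2, ← (List.cons.inj e2).2]
            | tail b' hh =>
              intro b c a x e1 e2 e3
              exact absurd ((List.cons.inj e2).1.symm.trans (List.cons.inj e1).1) e3
          have h4 : x = c := h3 _ _ h1 _ _ _ _ rfl rfl hab
          rw [h4, hab'] at h2
          rw [if_pos h2]
          have := hz.2 h4
          omega

/-- the weights of the halfspace -/
def wts : List ℤ → List Bool → List ℤ
  | d :: ds, b :: c => (if b = true then -d else d) :: wts ds c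
  | _, _ => []

/-- the constant -/
def cst : List ℤ → List Bool → ℤ
  | d :: ds, b :: c => (if b = true then d else 0) + cst ds c
  | _, _ => 0

theorem length_wts : ∀ (d : List ℤ) (c : List Bool), d.length = c.length → (wts d c).length = c.length
  | [], [], _ => rfl
  | [], _ :: _, h => by simp at h
  | _ :: _, [], h => by simp at h
  | d :: ds, b :: c, h => by
    rw [wts, List.length_cons, length_wts ds c (by simpa using h), List.length_cons]

theorem dot_wts : ∀ (d : List ℤ) (c x : List Bool), d.length = c.length → x.length = c.length →
    dot (wts d c) x = wdist d c x - cst d c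
  | [], [], [], _, _ => by simp [wts, dot, wdist, cst]
  | [], [], _ :: _, _, h => by simp at h
  | [], _ :: _, _, h, _ => by simp at h
  | _ :: _, [], _, h, _ => by simp at h
  | _ :: _, _ :: _, [], _, h => by simp at h
  | d :: ds, b :: c, a :: x, h1, h2 => by
    have ih := dot_wts ds c x (by simpa using h1) (by simpa using h2)
    rw [wts, dot, wdist, cst, ih]
    cases a <;> cases b <;> simp <;> ring

/-- the gate which is false exactly at `c` and at the neighbours of `c` with the property `P` -/
def starGate (P : List Bool → Bool) (c : List Bool) : List ℤ × ℤ :=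
  (wts (dirs P c) c, 2 - cst (dirs P c) c)

theorem length_starGate (P : List Bool → Bool) (c : List Bool) : (starGate P c).1.length = c.length :=
  length_wts _ _ (length_dirs P c)

theorem mem_dirs : ∀ (P : List Bool → Bool) (c : List Bool) (d : ℤ), d ∈ dirs P c → d = 1 ∨ d = 2
  | _, [], d, h => by simp [dirs] at h
  | P, b :: c, d, h => by
    rw [dirs] at h
    rcases List.mem_cons.1 h with h | h
    · rw [h]
      split_ifs
      · exact Or.inl rfl
      · exact Or.inr rfl
    · exact mem_dirs _ c d h

theorem mem_wts : ∀ (ds : List ℤ) (c : List Bool) (w : ℤ), w ∈ wts ds c → ∃ d ∈ ds, w = d ∨ w = -d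
  | [], [], w, h => by simp [wts] at h
  | [], _ :: _, w, h => by simp [wts] at h
  | _ :: _, [], w, h => by simp [wts] at h
  | d :: ds, b :: c, w, h => by
    rw [wts] at h
    rcases List.mem_cons.1 h with h | h
    · refine ⟨d, List.mem_cons_self .., ?_⟩
      rw [h]
      split_ifs
      · exact Or.inr rfl
      · exact Or.inl rfl
    · obtain ⟨d', h1, h2⟩ := mem_wts ds c w h
      exact ⟨d', List.mem_cons_of_mem _ h1, h2⟩

theorem starGate_weights (P : List Bool → Bool) (c : List Bool) : ∀ w ∈ (starGate P c).1, w.natAbs ≤ 2 := by
  intro w hw
  obtain ⟨d, h1, h2⟩ := mem_wts _ _ w hw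
  rcases mem_dirs P c d h1 with rfl | rfl <;> rcases h2 with rfl | rfl <;> decide

/-- **A star is a halfspace.** -/
theorem starGate_false (P : List Bool → Bool) (c x : List Bool) (h : x.length = c.length) :
    gateVal (starGate P c) x = false ↔ x = c ∨ (Adj c x ∧ P x = true) := by
  rw [← wdist_one P c x h, gateVal, starGate, dot_wts _ _ _ (length_dirs P c) h]
  simp only [decide_eq_false_iff_not, not_le]
  constructor <;> intro h1 <;> omega

end Pool.Agent.Lib.ThrHard
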