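import Pool.Agent.Lib.MP_a221bc_esop.Statement

/-!
# Intersections of halfspaces from the truth table: statement

The minimum circuit size problem for circuits that are an AND of threshold gates, the function
being given by its truth table.
-/

namespace Pool.Agent.Lib.ThrHard

open Pool.Agent.Lib.EsopHard

/-- The weighted sum `w_1 x_1 + … + w_n x_n`. -/
def dot : List ℤ → List Bool → ℤ
  | w :: ws, b :: x => (if b = true then w else 0) + dot ws x
  | _, _ => 0

/-- The value at the point `x` of the threshold gate with the list `g.1` of weights and the
threshold `g.2`: it is true iff `g.2 ≤ w_1 x_1 + … + w_n x_n`. -/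
def gateVal (g : List ℤ × ℤ) (x : List Bool) : Bool := decide (g.2 ≤ dot g.1 x)

/-- The value at the point `x` of the AND of the threshold gates of the list `L`. -/
def andVal (L : List (List ℤ × ℤ)) (x : List Bool) : Bool := L.all fun g => gateVal g x

/-- The truth table (the list of the values at all the points of `{0, 1} ^ n`, in lexicographic
order) of the AND of the threshold gates of the list `L`. -/
def table (n : ℕ) (L : List (List ℤ × ℤ)) : List Bool := (points n).map (andVal L)

/-- The decision problem: given the truth table `p.1` of a Boolean function and a number `p.2`, is
the function the AND of at most `p.2` threshold gates all of whose weights have absolute value at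
most `W`? (The pairs with answer yes.) Here `W` is a natural number or `⊤`; for `W = ⊤` the weights
are arbitrary integers. The thresholds are arbitrary integers in all cases. -/
def ThrMCSP (W : ℕ∞) : Set (List Bool × ℕ) :=
  {p | ∃ (n : ℕ) (L : List (List ℤ × ℤ)), L.length ≤ p.2 ∧
    (∀ g ∈ L, g.1.length = n ∧ ∀ w ∈ g.1, (w.natAbs : ℕ∞) ≤ W) ∧ p.1 = table n L}

/-- The decision problem, as a language: the bit strings of the inputs with answer yes. -/
def ThrMCSPLanguage (W : ℕ∞) : Set (List Bool) := {w | ∃ p ∈ ThrMCSP W, word p = w}

end Pool.Agent.Lib.ThrHard
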