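import Pool.Agent.Lib.MP_a221bc_thr.Statement
import Pool.Agent.Lib.MP_a221bc_esop.Gray

/-!
# Halfspaces without two-dimensional faces are stars
-/

namespace Pool.Agent.Lib.ThrHard

open Pool.Agent.Lib.EsopHard

/-- the point where the weighted sum is least -/
def low : List ℤ → List Bool
  | [] => []
  | w :: ws => decide (w < 0) :: low ws

theorem length_low : ∀ w : List ℤ, (low w).length = w.length
  | [] => rfl
  | _ :: ws => by rw [low, List.length_cons, length_low ws, List.length_cons]

theorem dot_low_le : ∀ (w : List ℤ) (x : List Bool), x.length = w.length → dot w (low w) ≤ dot w x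
  | [], _, _ => by simp [dot]
  | w :: ws, [], h => by simp at h
  | w :: ws, b :: x, h => by
    have ih := dot_low_le ws x (by simpa using h)
    simp only [low, dot]
    by_cases hw : w < 0 <;> cases b <;> simp [hw] <;> omega

/-- one step towards the lowest point -/
theorem step_one : ∀ (w : List ℤ) (x : List Bool), x.length = w.length → x ≠ low w →
    ∃ y, Adj x y ∧ dot w y ≤ dot w x
  | [], [], _, h => absurd rfl h
  | [], _ :: _, h, _ => by simp at h
  | _ :: _, [], h, _ => by simp at h
  | w :: ws, b :: x, h, hne => by
    by_cases hb : b = decide (w < 0)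
    · have h1 : x ≠ low ws := by
        intro e
        exact hne (by rw [low, hb, e])
      obtain ⟨y, hy, hd⟩ := step_one ws x (by simpa using h) h1
      exact ⟨b :: y, Adj.tail b hy, by simp only [dot]; omega⟩
    · refine ⟨(!b) :: x, Adj.head b x, ?_⟩
      by_cases hw : w < 0 <;> cases b <;> simp [hw] at hb <;> simp [dot] <;> omega

/-- two independent steps towards the lowest point -/
theorem step_two : ∀ (w : List ℤ) (x : List Bool), x.length = w.length → x ≠ low w → ¬ Adj x (low w) →
    ∃ y y' z, Adj x y ∧ Adj x y' ∧ Adj y z ∧ Adj y' z ∧ y ≠ y' ∧ x ≠ z ∧ dot w y ≤ dot w x ∧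
      dot w y' ≤ dot w x ∧ dot w z ≤ dot w x
  | [], [], _, h, _ => absurd rfl h
  | [], _ :: _, h, _, _ => by simp at h
  | _ :: _, [], h, _, _ => by simp at h
  | w :: ws, b :: x, h, hne, hadj => by
    by_cases hb : b = decide (w < 0)
    · have h1 : x ≠ low ws := by
        intro e
        exact hne (by rw [low, hb, e])
      have h2 : ¬ Adj x (low ws) := by
        intro e
        apply hadj
        rw [low, ← hb]
        exact Adj.tail b e
      obtain ⟨y, y', z, a1, a2, a3, a4, a5, a6, a7, a8, a9⟩ := step_two ws x (by simpa using h) h1 h2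
      refine ⟨b :: y, b :: y', b :: z, Adj.tail b a1, Adj.tail b a2, Adj.tail b a3, Adj.tail b a4,
        fun e => a5 (List.cons.inj e).2, fun e => a6 (List.cons.inj e).2, ?_, ?_, ?_⟩ <;>
        simp only [dot] <;> omega
    · have hb' : decide (w < 0) = !b := by
        cases b <;> cases hd : decide (w < 0) <;> simp_all
      have h1 : x ≠ low ws := by
        intro e
        apply hadj
        rw [low, hb', ← e]
        exact Adj.head b x
      obtain ⟨y, hy, hd⟩ := step_one ws x (by simpa using h) h1
      have hs : dot (w :: ws) ((!b) :: x) ≤ dot (w :: ws) (b :: x) := by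
        by_cases hw : w < 0 <;> cases b <;> simp [hw] at hb' <;> simp [dot] <;> omega
      have hs' : dot (w :: ws) ((!b) :: y) ≤ dot (w :: ws) (b :: y) := by
        by_cases hw : w < 0 <;> cases b <;> simp [hw] at hb' <;> simp [dot] <;> omega
      have hs'' : dot (w :: ws) (b :: y) ≤ dot (w :: ws) (b :: x) := by
        simp only [dot]
        omega
      refine ⟨(!b) :: x, b :: y, (!b) :: y, Adj.head b x, Adj.tail b hy, Adj.tail _ hy, Adj.head b y,
        ?_, ?_, hs, hs'', hs'.trans hs''⟩
      · intro e
        have := (List.cons.inj e).1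
        cases b <;> simp at this
      · intro e
        have := (List.cons.inj e).1
        cases b <;> simp at this

/-- **A halfspace inside a set of points without a two-dimensional face is a star.** -/
theorem star_of_halfspace {n : ℕ} {Z : List Bool → Prop}
    (hZ : ∀ x y y' z, Z x → Z y → Z y' → Z z → Adj x y → Adj x y' → Adj y z → Adj y' z → y ≠ y' → x = z)
    (g : List ℤ × ℤ) (hg : g.1.length = n)
    (hsub : ∀ x : List Bool, x.length = n → gateVal g x = false → Z x) (x : List Bool) (hx : x.length = n)
    (h0 : gateVal g x = false) : Z (low g.1) ∧ (x = low g.1 ∨ Adj x (low g.1)) := by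
  have hlow : gateVal g (low g.1) = false := by
    have h1 := dot_low_le g.1 x (by rw [hx, hg])
    simp only [gateVal, decide_eq_false_iff_not, not_le] at h0 ⊢
    omega
  refine ⟨hsub _ (by rw [length_low, hg]) hlow, ?_⟩
  by_contra hcon
  rw [not_or] at hcon
  obtain ⟨y, y', z, a1, a2, a3, a4, a5, a6, a7, a8, a9⟩ := step_two g.1 x (by rw [hx, hg]) hcon.1 hcon.2
  have hval : ∀ u, dot g.1 u ≤ dot g.1 x → gateVal g u = false := by
    intro u hu
    simp only [gateVal, decide_eq_false_iff_not, not_le] at h0 ⊢
    omega
  have ly : y.length = n := by rw [← a1.length_eq, hx]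
  have ly' : y'.length = n := by rw [← a2.length_eq, hx]
  have lz : z.length = n := by rw [← a3.length_eq, ly]
  exact a6 (hZ x y y' z (hsub x hx h0) (hsub y ly (hval y a7)) (hsub y' ly' (hval y' a8))
    (hsub z lz (hval z a9)) a1 a2 a3 a4 a5)

end Pool.Agent.Lib.ThrHard
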