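import Pool.Agent.Lib.MP_a221bc_thr.Lower
import Pool.Agent.Lib.MP_a221bc_thr.Geo
import Pool.Agent.Lib.MP_a221bc_thr.Star

/-!
# Satisfying assignments give small dominating sets; the two directions for halfspaces
-/

namespace Pool.Agent.Lib.ThrHard

open Pool.Agent.Lib.EsopHard

namespace Dat

variable (D : Dat)

/-- the vertex chosen for an element of the packing; `x` is the assignment and `w` chooses a
variable of each clause -/
def pick (x : ℕ → Bool) (w : ℕ → ℕ) : Vert → Vert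
  | .cyc v t => if x v = true then (if t + 1 = 12 * D.M then .cyc v 0 else .cyc v (t + 1)) else .cyc v (t - 1)
  | .cls C s => if s < 6 * w C then .cls C s else .cls C (s + 1)
  | .br v C _ => if x v = D.sg v C then .br v C 3 else .br v C 2

variable {D}

theorem pick_cyc {x : ℕ → Bool} {w : ℕ → ℕ} (v t : ℕ) : D.pick x w (.cyc v t) =
    if x v = true then (if t + 1 = 12 * D.M then .cyc v 0 else .cyc v (t + 1)) else .cyc v (t - 1) := rfl

theorem pick_cls {x : ℕ → Bool} {w : ℕ → ℕ} (C s : ℕ) : D.pick x w (.cls C s) =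
    if s < 6 * w C then .cls C s else .cls C (s + 1) := rfl

theorem pick_br {x : ℕ → Bool} {w : ℕ → ℕ} (v C q : ℕ) : D.pick x w (.br v C q) =
    if x v = D.sg v C then .br v C 3 else .br v C 2 := rfl

theorem pick_ok {x : ℕ → Bool} {w : ℕ → ℕ} {y : Vert} (hy : y ∈ D.P 1) : D.Ok (D.pick x w y) := by
  rcases D.mem_P.1 hy with ⟨v, k, h1, h2, rfl⟩ | ⟨C, k, h1, h2, h3, rfl⟩ | ⟨v, C, h1, h2, h3, h4, rfl⟩
  · rw [pick_cyc]
    split_ifs
    · exact ⟨h1, by omega⟩
    · exact ⟨h1, by omega⟩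
    · exact ⟨h1, by omega⟩
  · rw [pick_cls]
    split_ifs
    · exact ⟨h1, h2, by omega⟩
    · exact ⟨h1, h2, by omega⟩
  · rw [pick_br]
    split_ifs
    · exact ⟨h1, h2, h3, h4, by norm_num, by norm_num⟩
    · exact ⟨h1, h2, h3, h4, by norm_num, by norm_num⟩

section

variable {x : ℕ → Bool} {w : ℕ → ℕ}

/-- chosen vertices -/
def Ch (D : Dat) (x : ℕ → Bool) (w : ℕ → ℕ) (z : Vert) : Prop := ∃ y ∈ D.P 1, D.pick x w y = z

theorem ch_cyc_true {v t : ℕ} (hv : v < D.V) (ht : t < 12 * D.M) (hx : x v = true) (h3 : t % 3 = 0) :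
    D.Ch x w (.cyc v t) := by
  rcases Nat.eq_zero_or_pos t with h0 | h0
  · refine ⟨.cyc v (3 * (4 * D.M - 1) + 2), D.mem_P.2 (Or.inl ⟨v, 4 * D.M - 1, hv, by omega, rfl⟩), ?_⟩
    simp only [pick]
    rw [if_pos hx, if_pos (by omega), h0]
  · refine ⟨.cyc v (3 * (t / 3 - 1) + 2), D.mem_P.2 (Or.inl ⟨v, t / 3 - 1, hv, by omega, rfl⟩), ?_⟩
    simp only [pick]
    rw [if_pos hx, if_neg (by omega), Vert.cyc.injEq]
    omega

theorem ch_cyc_false {v t : ℕ} (hv : v < D.V) (ht : t < 12 * D.M) (hx : x v = false) (h3 : t % 3 = 1) :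
    D.Ch x w (.cyc v t) := by
  refine ⟨.cyc v (3 * (t / 3) + 2), D.mem_P.2 (Or.inl ⟨v, t / 3, hv, by omega, rfl⟩), ?_⟩
  simp only [pick]
  rw [if_neg (by rw [hx]; decide), Vert.cyc.injEq]
  omega

theorem ch_cls_lt {C k : ℕ} (hC : C < D.M) (ha : D.act C = true) (hk : k < 2 * D.V) (h : 3 * k + 1 < 6 * w C) :
    D.Ch x w (.cls C (3 * k + 1)) := by
  refine ⟨.cls C (3 * k + 1), D.mem_P.2 (Or.inr (Or.inl ⟨C, k, hC, ha, hk, rfl⟩)), ?_⟩
  simp only [pick]
  rw [if_pos h]

theorem ch_cls_ge {C k : ℕ} (hC : C < D.M) (ha : D.act C = true) (hk : k < 2 * D.V) (h : ¬ 3 * k + 1 < 6 * w C) :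
    D.Ch x w (.cls C (3 * k + 2)) := by
  refine ⟨.cls C (3 * k + 1), D.mem_P.2 (Or.inr (Or.inl ⟨C, k, hC, ha, hk, rfl⟩)), ?_⟩
  simp only [pick]
  rw [if_neg h]

theorem ch_br {v C : ℕ} (hv : v < D.V) (hC : C < D.M) (ha : D.act C = true) (hi : D.inc v C = true) :
    D.Ch x w (.br v C (if x v = D.sg v C then 3 else 2)) := by
  refine ⟨.br v C 2, D.mem_P.2 (Or.inr (Or.inr ⟨v, C, hv, hC, ha, hi, rfl⟩)), ?_⟩
  simp only [pick]
  split_ifs <;> rfl

theorem ch_dom (hw : ∀ C < D.M, D.act C = true → w C < D.V ∧ D.inc (w C) C = true ∧ x (w C) = D.sg (w C) C)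
    {z : Vert} (hz : D.Ok z) : ∃ s, D.Ch x w s ∧ D.N z s := by
  rcases z with ⟨v, t⟩ | ⟨C, s⟩ | ⟨v, C, q⟩
  · obtain ⟨hv, ht⟩ := hz
    have h3 := Nat.mod_lt t (show 0 < 3 by norm_num)
    rcases hx : x v with _ | _
    · rcases (show t % 3 = 0 ∨ t % 3 = 1 ∨ t % 3 = 2 by omega) with h | h | h
      · exact ⟨_, ch_cyc_false hv (show t + 1 < 12 * D.M by omega) hx (by omega), Or.inr ⟨rfl, Or.inl rfl⟩⟩
      · exact ⟨_, ch_cyc_false hv ht hx h, Or.inl rfl⟩
      · exact ⟨_, ch_cyc_false hv (show t - 1 < 12 * D.M by omega) hx (by omega),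
          Or.inr ⟨rfl, Or.inr (Or.inl (by omega))⟩⟩
    · rcases (show t % 3 = 0 ∨ t % 3 = 1 ∨ t % 3 = 2 by omega) with h | h | h
      · exact ⟨_, ch_cyc_true hv ht hx h, Or.inl rfl⟩
      · exact ⟨_, ch_cyc_true hv (show t - 1 < 12 * D.M by omega) hx (by omega),
          Or.inr ⟨rfl, Or.inr (Or.inl (by omega))⟩⟩
      · rcases Nat.lt_or_ge (t + 1) (12 * D.M) with h4 | h4
        · exact ⟨_, ch_cyc_true hv h4 hx (by omega), Or.inr ⟨rfl, Or.inl rfl⟩⟩
        · exact ⟨_, ch_cyc_true hv (show 0 < 12 * D.M by omega) hx (by omega),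
            Or.inr ⟨rfl, Or.inr (Or.inr (Or.inr ⟨rfl, by omega⟩))⟩⟩
  · obtain ⟨hC, ha, hs⟩ := hz
    obtain ⟨w1, w2, w3⟩ := hw C hC ha
    rcases lt_trichotomy s (6 * w C) with h | h | h
    · refine ⟨_, ch_cls_lt (k := s / 3) hC ha (by omega) (by omega), ?_⟩
      rcases (show s % 3 = 0 ∨ s % 3 = 1 ∨ s % 3 = 2 by omega) with h1 | h1 | h1
      · exact Or.inr ⟨rfl, Or.inl (by omega)⟩
      · left
        rw [Vert.cls.injEq]
        omega
      · exact Or.inr ⟨rfl, Or.inr (by omega)⟩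
    · refine ⟨_, ch_br w1 hC ha w2, Or.inr ?_⟩
      rw [if_pos w3]
      exact ⟨rfl, rfl, h⟩
    · refine ⟨_, ch_cls_ge (k := (s - 1) / 3) hC ha (by omega) (by omega), ?_⟩
      rcases (show s % 3 = 0 ∨ s % 3 = 1 ∨ s % 3 = 2 by omega) with h1 | h1 | h1
      · exact Or.inr ⟨rfl, Or.inr (by omega)⟩
      · exact Or.inr ⟨rfl, Or.inl (by omega)⟩
      · left
        rw [Vert.cls.injEq]
        omega
  · obtain ⟨hv, hC, ha, hi, h1, h3⟩ := hz
    have hb := ch_br (x := x) (w := w) hv hC ha hi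
    by_cases hx : x v = D.sg v C
    · rw [if_pos hx] at hb
      rcases (show q = 1 ∨ q = 2 ∨ q = 3 by omega) with rfl | rfl | rfl
      · rcases hsg : D.sg v C with _ | _
        · have e : D.rt v C = 4 := by
            unfold rt
            rw [hsg]
            rfl
          exact ⟨_, ch_cyc_false hv (show 12 * C + D.rt v C < 12 * D.M by omega) (by rw [hx, hsg])
            (by omega), Or.inr ⟨rfl, rfl, rfl⟩⟩
        · have e : D.rt v C = 0 := by
            unfold rt
            rw [hsg]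
            rfl
          exact ⟨_, ch_cyc_true hv (show 12 * C + D.rt v C < 12 * D.M by omega) (by rw [hx, hsg])
            (by omega), Or.inr ⟨rfl, rfl, rfl⟩⟩
      · exact ⟨_, hb, Or.inr ⟨rfl, rfl, Or.inl rfl⟩⟩
      · exact ⟨_, hb, Or.inl rfl⟩
    · rw [if_neg hx] at hb
      rcases (show q = 1 ∨ q = 2 ∨ q = 3 by omega) with rfl | rfl | rfl
      · exact ⟨_, hb, Or.inr ⟨rfl, rfl, Or.inl rfl⟩⟩
      · exact ⟨_, hb, Or.inl rfl⟩
      · exact ⟨_, hb, Or.inr ⟨rfl, rfl, Or.inr rfl⟩⟩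

end

/-! ## Halfspaces -/

/-- **From an assignment to halfspaces.** -/
theorem Fit.gates {i j : ℕ} (F : D.Fit i j) {x : ℕ → Bool}
    (hx : ∀ C < D.M, D.act C = true → ∃ v < D.V, D.inc v C = true ∧ x v = D.sg v C)
    (f : List Bool → Bool)
    (hf : ∀ u : List Bool, u.length = 2 * i + 2 * j + 9 → (f u = false ↔ D.Z i j u)) :
    ∃ L : List (List ℤ × ℤ), L.length ≤ D.K ∧
      (∀ g ∈ L, g.1.length = 2 * i + 2 * j + 9 ∧ ∀ w ∈ g.1, w.natAbs ≤ 2) ∧
      ∀ u : List Bool, u.length = 2 * i + 2 * j + 9 → andVal L u = f u := by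
  classical
  choose! w hw using hx
  let S : List (List Bool) := (D.P 1).toList.map fun y => D.code i j (D.pick x w y)
  refine ⟨S.map fun c => starGate (fun u => !(f u)) c, ?_, ?_, ?_⟩
  · rw [List.length_map, List.length_map, Finset.length_toList, D.card_P]
  · intro g hg
    obtain ⟨c, hc, rfl⟩ := List.mem_map.1 hg
    obtain ⟨y, -, rfl⟩ := List.mem_map.1 hc
    exact ⟨by rw [length_starGate, Dat.length_code], starGate_weights _ _⟩
  · intro u hu
    have hmem : ∀ c ∈ S, c.length = 2 * i + 2 * j + 9 := by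
      intro c hc
      obtain ⟨y, -, rfl⟩ := List.mem_map.1 hc
      rw [Dat.length_code]
    have e1 : andVal (S.map fun c => starGate (fun u => !(f u)) c) u = false ↔
        ∃ c ∈ S, u = c ∨ (Adj c u ∧ f u = false) := by
      rw [andVal, List.all_eq_false]
      constructor
      · rintro ⟨g, hg, h1⟩
        obtain ⟨c, hc, rfl⟩ := List.mem_map.1 hg
        rw [Bool.not_eq_true, starGate_false _ _ _ (by rw [hu, hmem c hc])] at h1
        exact ⟨c, hc, by simpa using h1⟩
      · rintro ⟨c, hc, h1⟩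
        refine ⟨_, List.mem_map.2 ⟨c, hc, rfl⟩, ?_⟩
        rw [Bool.not_eq_true, starGate_false _ _ _ (by rw [hu, hmem c hc])]
        simpa using h1
    have e2 : andVal (S.map fun c => starGate (fun u => !(f u)) c) u = false ↔ f u = false := by
      rw [e1]
      constructor
      · rintro ⟨c, hc, h1⟩
        rcases h1 with h1 | h1
        · obtain ⟨y, hy, rfl⟩ := List.mem_map.1 hc
          rw [hf u hu]
          exact ⟨_, pick_ok (Finset.mem_toList.1 hy), h1.symm⟩
        · exact h1.2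
      · intro h1
        obtain ⟨z, hz, rfl⟩ := (hf u hu).1 h1
        obtain ⟨s, ⟨y, hy, rfl⟩, hn⟩ := ch_dom hw hz
        refine ⟨D.code i j (D.pick x w y), List.mem_map.2 ⟨y, Finset.mem_toList.2 hy, rfl⟩, ?_⟩
        rcases hn with hn | hn
        · left
          rw [hn]
        · right
          exact ⟨(F.code_adj hz (pick_ok hy) hn).symm, h1⟩
    cases h1 : f u with
    | false => exact e2.2 h1
    | true =>
      cases h2 : andVal (S.map fun c => starGate (fun u => !(f u)) c) u with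
      | false => rw [e2.1 h2] at h1; exact h1
      | true => rfl

/-- **From halfspaces to an assignment.** -/
theorem Fit.assign {i j : ℕ} (F : D.Fit i j) (f : List Bool → Bool)
    (hf : ∀ u : List Bool, u.length = 2 * i + 2 * j + 9 → (f u = false ↔ D.Z i j u))
    (L : List (List ℤ × ℤ)) (hL : L.length ≤ D.K) (hl : ∀ g ∈ L, g.1.length = 2 * i + 2 * j + 9)
    (h : ∀ u : List Bool, u.length = 2 * i + 2 * j + 9 → andVal L u = f u) :
    ∃ x : ℕ → Bool, ∀ C < D.M, D.act C = true → ∃ v < D.V, D.inc v C = true ∧ x v = D.sg v C := by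
  classical
  have hsub : ∀ g ∈ L, ∀ u : List Bool, u.length = 2 * i + 2 * j + 9 → gateVal g u = false → D.Z i j u := by
    intro g hg u hu h0
    rw [← hf u hu, ← h u hu, andVal, List.all_eq_false]
    exact ⟨g, hg, by rw [h0]; decide⟩
  let c : (List ℤ × ℤ) → Option Vert := fun g =>
    if hz : D.Z i j (low g.1) then some hz.choose else none
  have hc : ∀ g z, c g = some z → D.Ok z ∧ D.code i j z = low g.1 := by
    intro g z hz
    simp only [c] at hz
    split_ifs at hz with h1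
    rw [Option.some.injEq] at hz
    rw [← hz]
    exact h1.choose_spec
  let S : Finset Vert := (L.filterMap c).toFinset
  have H : D.Dom S := by
    refine ⟨?_, ?_, ?_⟩
    · intro s hs
      rw [List.mem_toFinset, List.mem_filterMap] at hs
      obtain ⟨g, -, hg⟩ := hs
      exact (hc g s hg).1
    · intro z hz
      have h0 : f (D.code i j z) = false := (hf _ (D.length_code i j z)).2 ⟨z, hz, rfl⟩
      rw [← h _ (D.length_code i j z), andVal, List.all_eq_false] at h0
      obtain ⟨g, hg, h1⟩ := h0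
      rw [Bool.not_eq_true] at h1
      obtain ⟨h2, h3⟩ := star_of_halfspace F.no_face g (hl g hg) (hsub g hg) _ (D.length_code i j z) h1
      have h4 : c g = some h2.choose := by
        simp only [c]
        rw [dif_pos h2]
      obtain ⟨h5, h6⟩ := h2.choose_spec
      refine ⟨h2.choose, ?_, ?_⟩
      · rw [List.mem_toFinset, List.mem_filterMap]
        exact ⟨g, hg, h4⟩
      · rcases h3 with h3 | h3
        · left
          exact (F.code_inj hz h5 (by rw [h6, h3])).symm
        · right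
          exact F.adj_code hz h5 (by rw [h6]; exact h3)
    · exact (List.toFinset_card_le _).trans ((List.length_filterMap_le _ _).trans hL)
  exact H.sat

end Dat

end Pool.Agent.Lib.ThrHard
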