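import Mathlib

/-!
# The graph
-/

namespace Pool.Agent.Lib.ThrHard

/-- the data: numbers of variables and of clauses, active clauses, incidence, signs -/
structure Dat where
  /-- number of variables -/
  V : ℕ
  /-- number of clauses -/
  M : ℕ
  /-- active clauses -/
  act : ℕ → Bool
  /-- incidence -/
  inc : ℕ → ℕ → Bool
  /-- signs -/
  sg : ℕ → ℕ → Bool

/-- the vertices: cycles of the variables, paths of the clauses, bridges -/
inductive Vert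
  | cyc (v t : ℕ)
  | cls (C s : ℕ)
  | br (v C q : ℕ)
  deriving DecidableEq

/-- the position where the bridge is attached to the cycle, in its block -/
def Dat.rt (D : Dat) (v C : ℕ) : ℕ := if D.sg v C = true then 0 else 4

theorem Dat.rt_le (D : Dat) (v C : ℕ) : D.rt v C ≤ 4 := by
  unfold Dat.rt
  split_ifs <;> omega

/-- the vertices which exist -/
def Dat.Ok (D : Dat) : Vert → Prop
  | .cyc v t => v < D.V ∧ t < 12 * D.M
  | .cls C s => C < D.M ∧ D.act C = true ∧ s ≤ 6 * D.V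
  | .br v C q => v < D.V ∧ C < D.M ∧ D.act C = true ∧ D.inc v C = true ∧ 1 ≤ q ∧ q ≤ 3

/-- neighbours on a cycle of length `m` -/
def Nx (m t t' : ℕ) : Prop := t' = t + 1 ∨ t = t' + 1 ∨ (t = 0 ∧ t' + 1 = m) ∨ (t' = 0 ∧ t + 1 = m)

/-- adjacency -/
def Dat.E (D : Dat) : Vert → Vert → Prop
  | .cyc v t, .cyc v' t' => v = v' ∧ Nx (12 * D.M) t t'
  | .cyc v t, .br v' C q => v = v' ∧ q = 1 ∧ t = 12 * C + D.rt v C
  | .br v' C q, .cyc v t => v = v' ∧ q = 1 ∧ t = 12 * C + D.rt v C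
  | .cls C s, .cls C' s' => C = C' ∧ (s' = s + 1 ∨ s = s' + 1)
  | .cls C s, .br v C' q => C = C' ∧ q = 3 ∧ s = 6 * v
  | .br v C' q, .cls C s => C = C' ∧ q = 3 ∧ s = 6 * v
  | .br v C q, .br v' C' q' => v = v' ∧ C = C' ∧ (q' = q + 1 ∨ q = q' + 1)
  | .cyc _ _, .cls _ _ => False
  | .cls _ _, .cyc _ _ => False

theorem Dat.E_symm {D : Dat} : ∀ {a b : Vert}, D.E a b → D.E b a
  | .cyc v t, .cyc v' t', ⟨h1, h2⟩ => ⟨h1.symm, by unfold Nx at h2 ⊢; omega⟩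
  | .cyc _ _, .br _ _ _, h => h
  | .br _ _ _, .cyc _ _, h => h
  | .cls _ _, .cls _ _, ⟨h1, h2⟩ => ⟨h1.symm, h2.symm⟩
  | .cls _ _, .br _ _ _, h => h
  | .br _ _ _, .cls _ _, h => h
  | .br _ _ _, .br _ _ _, ⟨h1, h2, h3⟩ => ⟨h1.symm, h2.symm, h3.symm⟩
  | .cyc _ _, .cls _ _, h => h.elim
  | .cls _ _, .cyc _ _, h => h.elim

theorem Dat.no_square {D : Dat} {x y y' z : Vert} (ox : D.Ok x) (oy : D.Ok y)
    (oy' : D.Ok y') (oz : D.Ok z) (h1 : D.E x y) (h2 : D.E x y')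
    (h3 : D.E y z) (h4 : D.E y' z) (hne : y ≠ y') : x = z := by
  rcases x with ⟨v1, t1⟩ | ⟨c1, s1⟩ | ⟨v1, c1, q1⟩ <;>
  rcases y with ⟨v2, t2⟩ | ⟨c2, s2⟩ | ⟨v2, c2, q2⟩ <;> (try exact h1.elim) <;>
  rcases y' with ⟨v3, t3⟩ | ⟨c3, s3⟩ | ⟨v3, c3, q3⟩ <;> (try exact h2.elim) <;>
  rcases z with ⟨v4, t4⟩ | ⟨c4, s4⟩ | ⟨v4, c4, q4⟩ <;> (try exact h3.elim) <;> (try exact h4.elim) <;>
  simp only [Dat.E, Nx, Dat.Ok, ne_eq, Vert.cyc.injEq, Vert.cls.injEq, Vert.br.injEq, reduceCtorEq,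
    not_false_eq_true] at * <;>
  (try (have r1 := D.rt_le v1 c2)) <;> (try (have r2 := D.rt_le v1 c3)) <;>
  (try (have r1 := D.rt_le v2 c1)) <;> (try (have r2 := D.rt_le v2 c4)) <;>
  (try (have r1 := D.rt_le v3 c1)) <;> (try (have r2 := D.rt_le v3 c4)) <;>
  (try omega)
  · have e : v2 = v3 := by omega
    subst e
    omega
  · have e : v1 = v4 := by omega
    subst e
    omega
  · have e : v1 = v4 := by omega
    subst e
    omega
  · have e : v2 = v3 := by omega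
    subst e
    omega

end Pool.Agent.Lib.ThrHard
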